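import Pool.Agent.Q257.Lap.Tests

set_option autoImplicit false

/-!
# Balanced digraphs with Laplacian spread at most one
-/

namespace Pool.Agent.Q257.Lap

open Finset Matrix

variable {n : ℕ}

/-- the vector `e_i + e_j - e_k - e_l` -/
def vec4 (i j k l : Fin n) : Fin n → ℝ := fun t => vec2 i k t + vec2 j l t

theorem vec4_sum (i j k l : Fin n) : ∑ t, vec4 i j k l t = 0 := by
  simp [vec4, Finset.sum_add_distrib, vec2_sum]

theorem sum_mul_vec4 (f : Fin n → ℝ) (i j k l : Fin n) :
    ∑ t, f t * vec4 i j k l t = f i - f k + (f j - f l) := by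
  simp only [vec4, mul_add, Finset.sum_add_distrib, sum_mul_vec2]

theorem vec4_sq (i j k l : Fin n) (hij : i ≠ j) (hik : i ≠ k) (hil : i ≠ l) (hjk : j ≠ k)
    (hjl : j ≠ l) (hkl : k ≠ l) (t : Fin n) :
    vec4 i j k l t ^ 2 = (if t = i then 1 else 0) + (if t = j then 1 else 0) +
      (if t = k then 1 else 0) + (if t = l then 1 else 0) := by
  unfold vec4 vec2
  by_cases h1 : t = i
  · subst h1
    simp [hij, hik, hil]
  · by_cases h2 : t = j
    · subst h2
      simp [h1, hjk, hjl]
    · by_cases h3 : t = k
      · subst h3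
        simp [h1, h2, hkl]
      · by_cases h4 : t = l
        · subst h4
          simp [h1, h2, h3]
        · simp [h1, h2, h3, h4]

theorem vec4_norm (i j k l : Fin n) (hij : i ≠ j) (hik : i ≠ k) (hil : i ≠ l) (hjk : j ≠ k)
    (hjl : j ≠ l) (hkl : k ≠ l) : ∑ t, vec4 i j k l t ^ 2 = 4 := by
  simp only [vec4_sq i j k l hij hik hil hjk hjl hkl, Finset.sum_add_distrib]
  simp
  norm_num

/-- number of arcs between two vertices -/
noncomputable def sm (E : Fin n → Fin n → Prop) (i j : Fin n) : ℝ := adj E i j + adj E j i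

theorem quad_vec4 (E : Fin n → Fin n → Prop) (hE : ∀ i, ¬ E i i) (i j k l : Fin n)
    (hij : i ≠ j) (hik : i ≠ k) (hil : i ≠ l) (hjk : j ≠ k) (hjl : j ≠ l) (hkl : k ≠ l) :
    quad E (vec4 i j k l) = dg E i + dg E j + dg E k + dg E l - sm E i j - sm E k l
      + sm E i k + sm E i l + sm E j k + sm E j l := by
  rw [quad_expand]
  have h1 : ∑ t, dg E t * vec4 i j k l t ^ 2 = dg E i + dg E j + dg E k + dg E l := by
    simp only [vec4_sq i j k l hij hik hil hjk hjl hkl, mul_add, Finset.sum_add_distrib]
    simp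
  have h0 : ∀ s, adj E s s = 0 := by intro s; simp [adj, hE]
  have h2 : ∑ s, ∑ t, adj E s t * (vec4 i j k l s * vec4 i j k l t) =
      sm E i j + sm E k l - sm E i k - sm E i l - sm E j k - sm E j l := by
    have : ∀ s, ∑ t, adj E s t * (vec4 i j k l s * vec4 i j k l t) =
        (adj E s i - adj E s k + (adj E s j - adj E s l)) * vec4 i j k l s := by
      intro s
      rw [← sum_mul_vec4 (fun t => adj E s t) i j k l, Finset.sum_mul]
      exact Finset.sum_congr rfl fun t _ => by ring
    simp only [this]
    rw [sum_mul_vec4 (fun s => adj E s i - adj E s k + (adj E s j - adj E s l)) i j k l]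
    simp only [h0, sm]
    ring
  rw [h1, h2]
  ring

theorem quad4_bounds (E : Fin n → Fin n → Prop) (hE : ∀ i, ¬ E i i) (i j k l : Fin n)
    (hij : i ≠ j) (hik : i ≠ k) (hil : i ≠ l) (hjk : j ≠ k) (hjl : j ≠ l) (hkl : k ≠ l) :
    4 * alpha E ≤ dg E i + dg E j + dg E k + dg E l - sm E i j - sm E k l
      + sm E i k + sm E i l + sm E j k + sm E j l ∧
    dg E i + dg E j + dg E k + dg E l - sm E i j - sm E k l
      + sm E i k + sm E i l + sm E j k + sm E j l ≤ 4 * beta E := by
  have h1 := alpha_mul_le E (vec4 i j k l) (vec4_sum i j k l)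
  have h2 := le_beta_mul E (vec4 i j k l) (vec4_sum i j k l)
  rw [quad_vec4 E hE i j k l hij hik hil hjk hjl hkl,
    vec4_norm i j k l hij hik hil hjk hjl hkl] at h1 h2
  exact ⟨by linarith, by linarith⟩

/-- the symmetric part of the Laplacian -/
noncomputable def symm (E : Fin n → Fin n → Prop) : Matrix (Fin n) (Fin n) ℝ :=
  fun i j => (lap E i j + lap E j i) / 2

theorem symm_diag (E : Fin n → Fin n → Prop) (hE : ∀ i, ¬ E i i) (i : Fin n) :
    symm E i i = dg E i := by
  have h0 : adj E i i = 0 := by simp [adj, hE]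
  simp [symm, lap, dg, h0]

theorem symm_off (E : Fin n → Fin n → Prop) (i j : Fin n) (h : i ≠ j) :
    symm E i j = - (sm E i j / 2) := by
  simp [symm, lap, sm, Matrix.diagonal_apply_ne _ h, Matrix.diagonal_apply_ne _ h.symm]
  ring

theorem symm_quad (E : Fin n → Fin n → Prop) (x : Fin n → ℝ) :
    x ⬝ᵥ (symm E *ᵥ x) = quad E x := by
  rw [← quad_eq]
  have h1 : x ⬝ᵥ (symm E *ᵥ x) = (∑ i, ∑ j, x i * (lap E i j * x j) +
      ∑ i, ∑ j, x i * (lap E j i * x j)) / 2 := by
    simp only [dotProduct, mulVec, Finset.mul_sum, symm]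
    rw [← Finset.sum_add_distrib, Finset.sum_div]
    refine Finset.sum_congr rfl fun i _ => ?_
    rw [← Finset.sum_add_distrib, Finset.sum_div]
    exact Finset.sum_congr rfl fun j _ => by ring
  have h2 : ∑ i, ∑ j, x i * (lap E j i * x j) = ∑ i, ∑ j, x i * (lap E i j * x j) := by
    rw [Finset.sum_comm]
    exact Finset.sum_congr rfl fun i _ => Finset.sum_congr rfl fun j _ => by ring
  rw [h1, h2]
  simp only [dotProduct, mulVec, Finset.mul_sum]
  ring

open Classical in
/-- vertices joined to `i` by arcs in both directions -/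
noncomputable def PP (E : Fin n → Fin n → Prop) (i : Fin n) : Finset (Fin n) :=
  univ.filter fun j => E i j ∧ E j i

open Classical in
/-- vertices with exactly an arc from `i` -/
noncomputable def UU (E : Fin n → Fin n → Prop) (i : Fin n) : Finset (Fin n) :=
  univ.filter fun j => E i j ∧ ¬ E j i

open Classical in
/-- vertices with exactly an arc to `i` -/
noncomputable def WW (E : Fin n → Fin n → Prop) (i : Fin n) : Finset (Fin n) :=
  univ.filter fun j => ¬ E i j ∧ E j i

open Classical in
/-- other vertices not joined to `i` -/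
noncomputable def VV (E : Fin n → Fin n → Prop) (i : Fin n) : Finset (Fin n) :=
  univ.filter fun j => j ≠ i ∧ ¬ E i j ∧ ¬ E j i

theorem dg_card (E : Fin n → Fin n → Prop) (i : Fin n) :
    dg E i = (PP E i).card + (UU E i).card := by
  classical
  unfold dg PP UU adj
  rw [Finset.card_filter, Finset.card_filter]
  push_cast
  rw [← Finset.sum_add_distrib]
  refine Finset.sum_congr rfl fun j _ => ?_
  by_cases h1 : E i j <;> by_cases h2 : E j i <;> simp [h1, h2]

theorem indeg_card (E : Fin n → Fin n → Prop) (i : Fin n) :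
    ∑ j, adj E j i = (PP E i).card + (WW E i).card := by
  classical
  unfold PP WW adj
  rw [Finset.card_filter, Finset.card_filter]
  push_cast
  rw [← Finset.sum_add_distrib]
  refine Finset.sum_congr rfl fun j _ => ?_
  by_cases h1 : E i j <;> by_cases h2 : E j i <;> simp [h1, h2]

theorem total_card (E : Fin n → Fin n → Prop) (hE : ∀ i, ¬ E i i) (i : Fin n) :
    (PP E i).card + (UU E i).card + (WW E i).card + (VV E i).card + 1 = n := by
  classical
  have h : (1 : ℕ) = (univ.filter fun j => j = i).card := by simp [Finset.filter_eq']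
  have hn : n = ∑ _j : Fin n, 1 := by simp
  conv_rhs => rw [hn]
  conv_lhs => rw [h]
  unfold PP UU WW VV
  simp only [Finset.card_filter]
  rw [← Finset.sum_add_distrib, ← Finset.sum_add_distrib, ← Finset.sum_add_distrib,
    ← Finset.sum_add_distrib]
  refine Finset.sum_congr rfl fun j _ => ?_
  by_cases h0 : j = i
  · subst h0
    simp [hE]
  · by_cases h1 : E i j <;> by_cases h2 : E j i <;> simp [h0, h1, h2]

theorem sq_card (E : Fin n → Fin n → Prop) (i : Fin n) :
    ∑ j, (sm E i j / 2) ^ 2 =
      (PP E i).card + ((UU E i).card + (WW E i).card : ℝ) / 4 := by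
  classical
  unfold PP UU WW sm adj
  rw [Finset.card_filter, Finset.card_filter, Finset.card_filter]
  push_cast
  rw [← Finset.sum_add_distrib, Finset.sum_div, ← Finset.sum_add_distrib]
  refine Finset.sum_congr rfl fun j _ => ?_
  by_cases h1 : E i j <;> by_cases h2 : E j i <;> simp [h1, h2] <;> norm_num

theorem symm_sq (E : Fin n → Fin n → Prop) (hE : ∀ i, ¬ E i i) (i : Fin n) :
    ∑ j, symm E i j ^ 2 = dg E i ^ 2 + (PP E i).card + ((UU E i).card + (WW E i).card : ℝ) / 4 := by
  have h : ∀ j, symm E i j ^ 2 = (if j = i then dg E i ^ 2 else 0) + (sm E i j / 2) ^ 2 := by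
    intro j
    by_cases hj : j = i
    · subst hj
      have h0 : adj E j j = 0 := by simp [adj, hE]
      rw [symm_diag E hE]
      simp [sm, h0]
    · rw [symm_off E i j (fun h => hj h.symm)]
      simp [hj]
  simp only [h, Finset.sum_add_distrib]
  rw [sq_card]
  simp
  ring

/-- balancedness in terms of sums of the adjacency matrix -/
def Bal (E : Fin n → Fin n → Prop) : Prop := ∀ i, ∑ j, adj E i j = ∑ j, adj E j i

theorem bal_card {E : Fin n → Fin n → Prop} (hb : Bal E) (i : Fin n) :
    (UU E i).card = (WW E i).card := by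
  have h1 := dg_card E i
  have h2 := indeg_card E i
  have h3 := hb i
  unfold dg at h1
  have : ((UU E i).card : ℝ) = (WW E i).card := by linarith
  exact_mod_cast this

theorem symm_row (E : Fin n → Fin n → Prop) (hb : Bal E) (i : Fin n) : ∑ j, symm E i j = 0 := by
  unfold symm lap
  rw [← Finset.sum_div]
  have h1 : ∑ j, (Matrix.diagonal (fun i => ∑ j, adj E i j) - adj E) i j = 0 := by
    simp [Matrix.diagonal_apply]
  have h2 : ∑ j, (Matrix.diagonal (fun i => ∑ j, adj E i j) - adj E) j i = 0 := by
    simp [Matrix.diagonal_apply, hb i]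
  rw [Finset.sum_add_distrib, h1, h2]
  simp

/-- the basic inequality at a vertex of a balanced digraph of spread at most one -/
theorem vertex_ineq (hn : 2 ≤ n) (E : Fin n → Fin n → Prop) (hE : ∀ i, ¬ E i i) (hb : Bal E)
    (hs : spread E ≤ 1) (i : Fin n) :
    ((n - 1 : ℝ) * ((alpha E + beta E) / 2) - n * dg E i) ^ 2 +
      n * (((PP E i).card : ℝ) * (UU E i).card + 2 * (PP E i).card * (VV E i).card +
        (UU E i).card * (VV E i).card) / 2 ≤ (n - 1 : ℝ) ^ 2 / 4 := by
  have hab := alpha_le_beta hn E
  have h := row_bound (by omega) (symm E) (fun i j => by unfold symm; ring) (symm_row E hb)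
    (alpha E) (beta E) hab (fun x hx => by
      rw [symm_quad]
      exact ⟨alpha_mul_le E x hx, le_beta_mul E x hx⟩) i
  rw [symm_sq E hE, symm_diag E hE] at h
  have h1 := total_card E hE i
  have h2 := bal_card hb i
  have h3 := dg_card E i
  set p := (PP E i).card
  set u := (UU E i).card
  set w := (WW E i).card
  set v := (VV E i).card
  have h1' : (p : ℝ) + u + w + v + 1 = n := by exact_mod_cast h1
  have h2' : (u : ℝ) = w := by exact_mod_cast h2
  rw [← h2'] at h h1'
  have hn0 : (0 : ℝ) < n := by
    have : (2 : ℝ) ≤ n := by exact_mod_cast hn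
    linarith
  have hn1 : (0 : ℝ) < n - 1 := by
    have : (2 : ℝ) ≤ n := by exact_mod_cast hn
    linarith
  have hr : ((beta E - alpha E) / 2) ^ 2 ≤ 1 / 4 := by
    unfold spread at hs
    nlinarith
  have hc : (1 : ℝ) - 1 / n = (n - 1) / n := by field_simp
  rw [hc] at h
  have h4 : dg E i ^ 2 + p + (u + u : ℝ) / 4 - (alpha E + beta E) * dg E i +
      ((alpha E + beta E) / 2) ^ 2 * ((n - 1) / n) ≤ 1 / 4 * ((n - 1) / n) := by
    refine h.trans ?_
    exact mul_le_mul_of_nonneg_right hr (by positivity)
  set c := (alpha E + beta E) / 2 with hcdef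
  have h5 : alpha E + beta E = 2 * c := by rw [hcdef]; ring
  rw [h5] at h4
  have h6 : (dg E i ^ 2 + p + (u + u : ℝ) / 4 - 2 * c * dg E i) * n + c ^ 2 * (n - 1) ≤
      1 / 4 * (n - 1) := by
    have := mul_le_mul_of_nonneg_right h4 hn0.le
    have e1 : (dg E i ^ 2 + p + (u + u : ℝ) / 4 - 2 * c * dg E i + c ^ 2 * ((n - 1) / n)) * n =
        (dg E i ^ 2 + p + (u + u : ℝ) / 4 - 2 * c * dg E i) * n + c ^ 2 * (n - 1) := by
      field_simp
    have e2 : 1 / 4 * (((n : ℝ) - 1) / n) * n = 1 / 4 * (n - 1) := by
      field_simp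
    rw [e1, e2] at this
    exact this
  have h7 := mul_le_mul_of_nonneg_left h6 hn1.le
  rw [h3] at h7 ⊢
  have hv : (v : ℝ) = n - 1 - p - 2 * u := by linarith
  rw [hv]
  nlinarith

theorem types (p u v : ℕ) (h : 2 * (p * u + 2 * p * v + u * v) < p + 2 * u + v) :
    (p = 0 ∧ u = 0) ∨ (u = 0 ∧ v = 0) ∨ (p = 0 ∧ v = 0) ∨ (p = 1 ∧ v = 0) ∨ (p = 0 ∧ v = 1) := by
  rcases Nat.eq_zero_or_pos p with hp | hp
  · subst hp
    rcases Nat.eq_zero_or_pos u with hu | hu
    · exact Or.inl ⟨rfl, hu⟩
    · have hv : v ≤ 1 := by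
        by_contra hv
        push Not at hv
        nlinarith
      rcases Nat.eq_zero_or_pos v with hv0 | hv0
      · exact Or.inr (Or.inr (Or.inl ⟨rfl, hv0⟩))
      · exact Or.inr (Or.inr (Or.inr (Or.inr ⟨rfl, by omega⟩)))
  · have hv : v = 0 := by
      by_contra hv
      have hv' : 1 ≤ v := Nat.one_le_iff_ne_zero.2 hv
      nlinarith [Nat.mul_le_mul hp hv']
    subst hv
    rcases Nat.eq_zero_or_pos u with hu | hu
    · exact Or.inr (Or.inl ⟨hu, rfl⟩)
    · have hp1 : p ≤ 1 := by
        by_contra hp1
        push Not at hp1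
        nlinarith
      exact Or.inr (Or.inr (Or.inr (Or.inl ⟨by omega, rfl⟩)))

/-- structure of balanced digraphs of spread at most one -/
theorem structure_thm (hn : 2 ≤ n) (E : Fin n → Fin n → Prop) (hE : ∀ i, ¬ E i i) (hb : Bal E)
    (hs : spread E ≤ 1) :
    (∀ i, (PP E i).card = 0 ∧ (UU E i).card = 0) ∨
    (∀ i, (UU E i).card = 0 ∧ (VV E i).card = 0) ∨
    (∀ i, (PP E i).card = 0 ∧ (VV E i).card = 0) ∨
    (∀ i, (PP E i).card = 1 ∧ (VV E i).card = 0 ∧ 1 ≤ (UU E i).card) ∨
    (∀ i, (PP E i).card = 0 ∧ (VV E i).card = 1 ∧ 1 ≤ (UU E i).card) := by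
  have hn2 : (2 : ℝ) ≤ n := by exact_mod_cast hn
  have hty : ∀ i, 2 * ((PP E i).card * (UU E i).card + 2 * (PP E i).card * (VV E i).card +
      (UU E i).card * (VV E i).card) < (PP E i).card + 2 * (UU E i).card + (VV E i).card := by
    intro i
    have h := vertex_ineq hn E hE hb hs i
    have h1 := total_card E hE i
    have h2 := bal_card hb i
    rw [← h2] at h1
    have h1' : ((PP E i).card : ℝ) + (UU E i).card + (UU E i).card + (VV E i).card + 1 = n := by
      exact_mod_cast h1
    have h3 : (n : ℝ) * (2 * (((PP E i).card : ℝ) * (UU E i).card + 2 * (PP E i).card *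
        (VV E i).card + (UU E i).card * (VV E i).card)) < n * (n - 1) := by
      nlinarith [sq_nonneg ((n - 1 : ℝ) * ((alpha E + beta E) / 2) - n * dg E i)]
    have h4 := lt_of_mul_lt_mul_left h3 (by linarith : (0 : ℝ) ≤ n)
    have h5 : (2 * (((PP E i).card : ℝ) * (UU E i).card + 2 * (PP E i).card *
        (VV E i).card + (UU E i).card * (VV E i).card)) <
        (PP E i).card + 2 * (UU E i).card + (VV E i).card := by linarith
    exact_mod_cast h5
  have hdeg : ∀ i k, (PP E i).card + (UU E i).card = (PP E k).card + (UU E k).card := by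
    intro i k
    have hi := vertex_ineq hn E hE hb hs i
    have hk := vertex_ineq hn E hE hb hs k
    have pi : (0 : ℝ) ≤ n * (((PP E i).card : ℝ) * (UU E i).card + 2 * (PP E i).card *
      (VV E i).card + (UU E i).card * (VV E i).card) / 2 := by positivity
    have pk : (0 : ℝ) ≤ n * (((PP E k).card : ℝ) * (UU E k).card + 2 * (PP E k).card *
      (VV E k).card + (UU E k).card * (VV E k).card) / 2 := by positivity
    have hi' : ((n - 1 : ℝ) * ((alpha E + beta E) / 2) - n * dg E i) ^ 2 ≤ ((n - 1 : ℝ) / 2) ^ 2 := by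
      nlinarith
    have hk' : ((n - 1 : ℝ) * ((alpha E + beta E) / 2) - n * dg E k) ^ 2 ≤ ((n - 1 : ℝ) / 2) ^ 2 := by
      nlinarith
    have ai := abs_le_of_sq_le_sq' hi' (by linarith)
    have ak := abs_le_of_sq_le_sq' hk' (by linarith)
    have h1 : (n : ℝ) * (dg E i - dg E k) < n * 1 := by linarith [ai.1, ai.2, ak.1, ak.2]
    have h2 : (n : ℝ) * (dg E k - dg E i) < n * 1 := by linarith [ai.1, ai.2, ak.1, ak.2]
    have h1' := lt_of_mul_lt_mul_left h1 (by linarith : (0 : ℝ) ≤ n)
    have h2' := lt_of_mul_lt_mul_left h2 (by linarith : (0 : ℝ) ≤ n)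
    rw [dg_card, dg_card] at h1' h2'
    have h3 : ((PP E i).card : ℝ) + (UU E i).card < ((PP E k).card : ℝ) + (UU E k).card + 1 := by
      linarith
    have h4 : ((PP E k).card : ℝ) + (UU E k).card < ((PP E i).card : ℝ) + (UU E i).card + 1 := by
      linarith
    have h3' : (PP E i).card + (UU E i).card < (PP E k).card + (UU E k).card + 1 := by
      exact_mod_cast h3
    have h4' : (PP E k).card + (UU E k).card < (PP E i).card + (UU E i).card + 1 := by
      exact_mod_cast h4
    omega
  have htot : ∀ i, (PP E i).card + 2 * (UU E i).card + (VV E i).card + 1 = n := by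
    intro i
    have h1 := total_card E hE i
    have h2 := bal_card hb i
    omega
  let i0 : Fin n := ⟨0, by omega⟩
  by_cases hu : (UU E i0).card = 0
  · rcases types _ _ _ (hty i0) with h | h | h | h | h
    · left
      intro i
      have := hdeg i i0
      omega
    · right; left
      intro i
      have := hdeg i i0
      have := htot i
      have := htot i0
      omega
    · exfalso
      have := htot i0
      omega
    · right; left
      intro i
      have := hdeg i i0
      have := htot i
      have := htot i0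
      omega
    · left
      intro i
      have := hdeg i i0
      omega
  · rcases types _ _ _ (hty i0) with h | h | h | h | h
    · exact absurd h.2 hu
    · exact absurd h.1 hu
    · right; right; left
      intro i
      have h1 := hdeg i i0
      have h2 := htot i
      have h3 := htot i0
      rcases types _ _ _ (hty i) with h' | h' | h' | h' | h' <;> omega
    · right; right; right; left
      intro i
      have h1 := hdeg i i0
      have h2 := htot i
      have h3 := htot i0
      rcases types _ _ _ (hty i) with h' | h' | h' | h' | h' <;> omega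
    · right; right; right; right
      intro i
      have h1 := hdeg i i0
      have h2 := htot i
      have h3 := htot i0
      rcases types _ _ _ (hty i) with h' | h' | h' | h' | h' <;> omega

/-- if all pairs carry the same number of arcs, the spread is zero -/
theorem spread_zero_of_const (hn : 2 ≤ n) (E : Fin n → Fin n → Prop) (hE : ∀ i, ¬ E i i)
    (hb : Bal E) (κ : ℝ) (h : ∀ i j, i ≠ j → sm E i j = κ) : spread E = 0 := by
  apply spread_eq_zero hn E (κ * n / 2)
  intro x hx
  have h0 : ∀ s, adj E s s = 0 := by intro s; simp [adj, hE]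
  have hsm : ∀ i j, sm E i j = κ - (if j = i then κ else 0) := by
    intro i j
    by_cases hj : j = i
    · subst hj
      simp [sm, h0]
    · simp [h i j (fun h' => hj h'.symm), hj]
  have hd : ∀ i, dg E i = κ * (n - 1) / 2 := by
    intro i
    have : dg E i + dg E i = κ * (n - 1) := by
      have e : dg E i + dg E i = ∑ j, sm E i j := by
        unfold sm
        rw [Finset.sum_add_distrib, ← hb i]
        rfl
      rw [e]
      simp only [hsm, Finset.sum_sub_distrib]
      simp
      ring
    linarith
  rw [quad_expand]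
  have h1 : ∑ i, dg E i * x i ^ 2 = κ * (n - 1) / 2 * ∑ i, x i ^ 2 := by
    simp only [hd, Finset.mul_sum]
  have h2 : ∑ i, ∑ j, adj E i j * (x i * x j) = - (κ / 2 * ∑ i, x i ^ 2) := by
    have e1 : ∑ i, ∑ j, adj E i j * (x i * x j) = ∑ i, ∑ j, adj E j i * (x i * x j) := by
      rw [Finset.sum_comm]
      exact Finset.sum_congr rfl fun i _ => Finset.sum_congr rfl fun j _ => by ring
    have e2 : ∑ i, ∑ j, adj E i j * (x i * x j) + ∑ i, ∑ j, adj E j i * (x i * x j) =
        ∑ i, ∑ j, (κ - (if j = i then κ else 0)) * (x i * x j) := by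
      rw [← Finset.sum_add_distrib]
      refine Finset.sum_congr rfl fun i _ => ?_
      rw [← Finset.sum_add_distrib]
      refine Finset.sum_congr rfl fun j _ => ?_
      rw [← hsm i j, sm]
      ring
    have e3 : ∑ i, ∑ j, (κ - (if j = i then κ else 0)) * (x i * x j) = - (κ * ∑ i, x i ^ 2) := by
      have : ∀ i, ∑ j, (κ - (if j = i then κ else 0)) * (x i * x j) = - (κ * x i ^ 2) := by
        intro i
        simp only [sub_mul, Finset.sum_sub_distrib]
        have a1 : ∑ j, κ * (x i * x j) = 0 := by
          have : ∀ j, κ * (x i * x j) = (κ * x i) * x j := fun j => by ring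
          simp only [this]
          rw [← Finset.mul_sum, hx, mul_zero]
        rw [a1]
        simp only [ite_mul, zero_mul, Finset.sum_ite_eq', Finset.sum_ite_eq, Finset.mem_univ, if_true]
        ring
      simp only [this, Finset.sum_neg_distrib, ← Finset.mul_sum]
    rw [← e1, e3] at e2
    linarith
  rw [h1, h2]
  ring

theorem sm_of_not_mem (E : Fin n → Fin n → Prop) (i j : Fin n) (hij : i ≠ j)
    (h1 : j ∉ PP E i) (h2 : j ∉ VV E i) : sm E i j = 1 := by
  classical
  simp only [PP, VV, Finset.mem_filter, Finset.mem_univ, true_and, not_and, not_not] at h1 h2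
  unfold sm adj
  by_cases a : E i j
  · have b : ¬ E j i := h1 a
    simp [a, b]
  · have b : E j i := h2 (fun h => hij h.symm) a
    simp [a, b]

theorem sm_of_mem_PP (E : Fin n → Fin n → Prop) (i j : Fin n) (h1 : j ∈ PP E i) :
    sm E i j = 2 := by
  classical
  simp only [PP, Finset.mem_filter, Finset.mem_univ, true_and] at h1
  unfold sm adj
  simp [h1]
  norm_num

theorem sm_of_mem_VV (E : Fin n → Fin n → Prop) (i j : Fin n) (h1 : j ∈ VV E i) :
    sm E i j = 0 := by
  classical
  simp only [VV, Finset.mem_filter, Finset.mem_univ, true_and] at h1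
  unfold sm adj
  simp [h1]

theorem sm_of_not_mem' (E : Fin n → Fin n → Prop) (i j : Fin n) (hij : i ≠ j)
    (h1 : j ∉ UU E i) (h2 : j ∉ WW E i) (h3 : j ∉ PP E i) : sm E i j = 0 := by
  classical
  simp only [UU, WW, PP, Finset.mem_filter, Finset.mem_univ, true_and, not_and, not_not] at h1 h2 h3
  unfold sm adj
  by_cases a : E i j
  · exact absurd (h1 a) (h3 a)
  · by_cases b : E j i
    · exact absurd b (h2 a)
    · simp [a, b]

theorem sm_of_not_mem'' (E : Fin n → Fin n → Prop) (i j : Fin n) (hij : i ≠ j)
    (h1 : j ∉ UU E i) (h2 : j ∉ WW E i) (h3 : j ∉ VV E i) : sm E i j = 2 := by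
  classical
  simp only [UU, WW, VV, Finset.mem_filter, Finset.mem_univ, true_and, not_and, not_not] at h1 h2 h3
  unfold sm adj
  by_cases a : E i j
  · simp [a, h1 a]
    norm_num
  · by_cases b : E j i
    · exact absurd (h2 a) (fun h => h b)
    · exact absurd (h3 (fun h => hij h.symm) a) b

/-- common part of the last two cases -/
theorem spread_ge_one (hn : 2 ≤ n) (E : Fin n → Fin n → Prop) (hE : ∀ i, ¬ E i i) (Q : Fin n → Finset (Fin n))
    (hQ : ∀ i, (Q i).card = 1) (hsy : ∀ i j, j ∈ Q i → i ∈ Q j) (hne : ∀ i, i ∉ Q i) (d κ : ℝ)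
    (hd : ∀ i, dg E i = d) (hκ : ∀ i j, j ∈ Q i → sm E i j = κ)
    (h1 : ∀ i j, i ≠ j → j ∉ Q i → sm E i j = 1) (hn4 : 3 ≤ n) (hk : κ = 2 ∨ κ = 0) :
    1 ≤ spread E := by
  classical
  have hex : ∀ i, ∃ j, Q i = {j} := fun i => Finset.card_eq_one.1 (hQ i)
  choose σ hσ using hex
  have hmem : ∀ i, σ i ∈ Q i := fun i => by rw [hσ i]; simp
  have huniq : ∀ i j, j ∈ Q i → j = σ i := by
    intro i j h
    rw [hσ i] at h
    simpa using h
  let i : Fin n := ⟨0, by omega⟩
  set j := σ i with hj
  have hij : i ≠ j := fun h => hne i (by conv => { arg 2; rw [h] }; exact hmem i)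
  obtain ⟨k, hk1⟩ : ∃ k : Fin n, k ∉ ({i, j} : Finset (Fin n)) := by
    by_contra hcon
    push Not at hcon
    have : (univ : Finset (Fin n)).card ≤ ({i, j} : Finset (Fin n)).card :=
      Finset.card_le_card fun x _ => hcon x
    have h2 : ({i, j} : Finset (Fin n)).card ≤ 2 := Finset.card_le_two
    rw [Finset.card_univ, Fintype.card_fin] at this
    omega
  simp only [Finset.mem_insert, Finset.mem_singleton, not_or] at hk1
  obtain ⟨hki, hkj⟩ := hk1
  set l := σ k with hl
  have hlk : k ≠ l := fun h => hne k (by conv => { arg 2; rw [h] }; exact hmem k)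
  have hli : i ≠ l := by
    intro h
    have h2 : k ∈ Q l := hsy k l (hmem k)
    rw [← h] at h2
    exact hkj (huniq i k h2)
  have hlj : j ≠ l := by
    intro h
    have h2 : k ∈ Q l := hsy k l (hmem k)
    rw [← h] at h2
    have h3 : i ∈ Q j := hsy i j (hmem i)
    rw [huniq j k h2, huniq j i h3] at hki
    exact hki rfl
  have e1 : sm E i j = κ := hκ i j (hmem i)
  have e2 : sm E k l = κ := hκ k l (hmem k)
  have e3 : sm E i k = 1 := h1 i k (Ne.symm hki) (fun h => hkj (huniq i k h))
  have e4 : sm E i l = 1 := h1 i l hli (fun h => hlj (huniq i l h).symm)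
  have e5 : sm E j k = 1 := h1 j k (Ne.symm hkj) (fun h => by
    have h3 : i ∈ Q j := hsy i j (hmem i)
    rw [huniq j k h, huniq j i h3] at hki
    exact hki rfl)
  have e6 : sm E j l = 1 := h1 j l hlj (fun h => by
    have h3 : i ∈ Q j := hsy i j (hmem i)
    exact hli ((huniq j i h3).trans (huniq j l h).symm))
  obtain ⟨b1, b2⟩ := quad4_bounds E hE i j k l hij (Ne.symm hki) hli (Ne.symm hkj) hlj hlk
  rw [e1, e2, e3, e4, e5, e6, hd i, hd j, hd k, hd l] at b1 b2
  have c1 := pair_le_beta E hE i j hij
  have c2 := alpha_le_pair E hE i j hij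
  rw [hd i, hd j] at c1 c2
  unfold sm at e1
  unfold spread
  rcases hk with hk | hk
  · rw [hk] at e1 b1 b2
    linarith
  · rw [hk] at e1 b1 b2
    linarith

/-- the final dichotomy for balanced digraphs of spread at most one -/
theorem dichotomy (hn : 2 ≤ n) (E : Fin n → Fin n → Prop) (hE : ∀ i, ¬ E i i) (hb : Bal E)
    (hs : spread E ≤ 1) :
    spread E = 0 ∨ (1 ≤ spread E ∧ 4 ≤ n ∧ Even n ∧
      ((∀ i, (PP E i).card = 1 ∧ (VV E i).card = 0 ∧ 2 * (UU E i).card = n - 2) ∨
       (∀ i, (PP E i).card = 0 ∧ (VV E i).card = 1 ∧ 2 * (UU E i).card = n - 2))) := by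
  classical
  have htot : ∀ i, (PP E i).card + 2 * (UU E i).card + (VV E i).card + 1 = n := by
    intro i
    have h1 := total_card E hE i
    have h2 := bal_card hb i
    omega
  let i0 : Fin n := ⟨0, by omega⟩
  rcases structure_thm hn E hE hb hs with h | h | h | h | h
  · left
    apply spread_zero_of_const hn E hE hb 0
    intro i j hij
    have h1 := (h i).1
    have h2 := (h i).2
    have h3 := bal_card hb i
    rw [h2] at h3
    rw [Finset.card_eq_zero] at h1 h2
    have h3' := Finset.card_eq_zero.1 h3.symm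
    exact sm_of_not_mem' E i j hij (by rw [h2]; simp) (by rw [h3']; simp) (by rw [h1]; simp)
  · left
    apply spread_zero_of_const hn E hE hb 2
    intro i j hij
    have h1 := (h i).2
    have h2 := (h i).1
    have h3 := bal_card hb i
    rw [h2] at h3
    rw [Finset.card_eq_zero] at h1 h2
    have h3' := Finset.card_eq_zero.1 h3.symm
    exact sm_of_not_mem'' E i j hij (by rw [h2]; simp) (by rw [h3']; simp) (by rw [h1]; simp)
  · left
    apply spread_zero_of_const hn E hE hb 1
    intro i j hij
    have h1 := (h i).1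
    have h2 := (h i).2
    rw [Finset.card_eq_zero] at h1 h2
    exact sm_of_not_mem E i j hij (by rw [h1]; simp) (by rw [h2]; simp)
  · right
    have ht0 := htot i0
    have h0 := h i0
    have hu : ∀ i, 2 * (UU E i).card = n - 2 := by
      intro i
      have := htot i
      have := h i
      omega
    refine ⟨?_, by omega, ?_, Or.inl fun i => ⟨(h i).1, (h i).2.1, hu i⟩⟩
    · refine spread_ge_one hn E hE (PP E) (fun i => (h i).1) ?_ ?_ ((n : ℝ) / 2) 2 ?_ ?_ ?_
        (by omega) (Or.inl rfl)
      · intro i j hj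
        simp only [PP, Finset.mem_filter, Finset.mem_univ, true_and] at hj ⊢
        exact hj.symm
      · intro i hi
        simp only [PP, Finset.mem_filter, Finset.mem_univ, true_and] at hi
        exact hE i hi.1
      · intro i
        rw [dg_card, (h i).1]
        have h2 : (2 : ℝ) * (UU E i).card = n - 2 := by
          have := hu i
          have h3 : 2 * (UU E i).card + 2 = n := by omega
          have h4 : (2 : ℝ) * (UU E i).card + 2 = n := by exact_mod_cast h3
          linarith
        push_cast
        linarith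
      · exact fun i j hj => sm_of_mem_PP E i j hj
      · intro i j hij hj
        have h2 := (h i).2.1
        rw [Finset.card_eq_zero] at h2
        exact sm_of_not_mem E i j hij hj (by rw [h2]; simp)
    · refine ⟨(UU E i0).card + 1, ?_⟩
      have := hu i0
      omega
  · right
    have ht0 := htot i0
    have h0 := h i0
    have hu : ∀ i, 2 * (UU E i).card = n - 2 := by
      intro i
      have := htot i
      have := h i
      omega
    refine ⟨?_, by omega, ?_, Or.inr fun i => ⟨(h i).1, (h i).2.1, hu i⟩⟩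
    · refine spread_ge_one hn E hE (VV E) (fun i => (h i).2.1) ?_ ?_ ((n : ℝ) / 2 - 1) 0 ?_ ?_ ?_
        (by omega) (Or.inr rfl)
      · intro i j hj
        simp only [VV, Finset.mem_filter, Finset.mem_univ, true_and] at hj ⊢
        exact ⟨hj.1.symm, hj.2.2, hj.2.1⟩
      · intro i hi
        simp only [VV, Finset.mem_filter, Finset.mem_univ, true_and] at hi
        exact hi.1 rfl
      · intro i
        rw [dg_card, (h i).1]
        have h2 : (2 : ℝ) * (UU E i).card = n - 2 := by
          have := hu i
          have h3 : 2 * (UU E i).card + 2 = n := by omega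
          have h4 : (2 : ℝ) * (UU E i).card + 2 = n := by exact_mod_cast h3
          linarith
        push_cast
        linarith
      · exact fun i j hj => sm_of_mem_VV E i j hj
      · intro i j hij hj
        have h2 := (h i).1
        rw [Finset.card_eq_zero] at h2
        exact sm_of_not_mem E i j hij (by rw [h2]; simp) hj
    · refine ⟨(UU E i0).card + 1, ?_⟩
      have := hu i0
      omega

theorem bal_of_ncard (E : Fin n → Fin n → Prop)
    (h : ∀ i, {j | E i j}.ncard = {j | E j i}.ncard) : Bal E := by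
  classical
  intro i
  have h1 : ∀ P : Fin n → Prop, ({j | P j}.ncard : ℝ) = ∑ j, (if P j then (1 : ℝ) else 0) := by
    intro P
    rw [Set.ncard_eq_toFinset_card', Finset.sum_boole]
    congr 2
    ext j
    simp
  have h2 : ∀ j k, adj E j k = if E j k then (1 : ℝ) else 0 := by
    intro j k
    unfold adj
    congr
  simp only [h2]
  rw [← h1 (fun j => E i j), ← h1 (fun j => E j i), h i]

end Pool.Agent.Q257.Lap
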