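import Mathlib

set_option autoImplicit false

/-!
# Laplacian spread of digraphs: definitions and basic facts
-/

namespace Pool.Agent.Q257.Lap

open Finset Matrix

variable {n : ℕ}

open Classical in
/-- adjacency matrix of a digraph on `Fin n` -/
noncomputable def adj (E : Fin n → Fin n → Prop) : Matrix (Fin n) (Fin n) ℝ :=
  fun i j => if E i j then 1 else 0

/-- the Laplacian: diagonal matrix of out-degrees minus the adjacency matrix -/
noncomputable def lap (E : Fin n → Fin n → Prop) : Matrix (Fin n) (Fin n) ℝ :=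
  Matrix.diagonal (fun i => ∑ j, adj E i j) - adj E

/-- the values `xᵀ L x` on real unit vectors orthogonal to the all-ones vector -/
def values (E : Fin n → Fin n → Prop) : Set ℝ :=
  {r | ∃ x : Fin n → ℝ, ∑ i, x i = 0 ∧ ∑ i, x i ^ 2 = 1 ∧ r = x ⬝ᵥ (lap E *ᵥ x)}

/-- `α`, the minimum of `xᵀ L x` -/
noncomputable def alpha (E : Fin n → Fin n → Prop) : ℝ := sInf (values E)

/-- `β`, the maximum of `xᵀ L x` -/
noncomputable def beta (E : Fin n → Fin n → Prop) : ℝ := sSup (values E)

/-- the Laplacian spread `β - α` -/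
noncomputable def spread (E : Fin n → Fin n → Prop) : ℝ := beta E - alpha E

/-- the quadratic form written out -/
noncomputable def quad (E : Fin n → Fin n → Prop) (x : Fin n → ℝ) : ℝ :=
  ∑ i, ∑ j, adj E i j * (x i * (x i - x j))

theorem quad_eq (E : Fin n → Fin n → Prop) (x : Fin n → ℝ) : x ⬝ᵥ (lap E *ᵥ x) = quad E x := by
  unfold quad lap
  simp only [dotProduct, Matrix.sub_mulVec, Pi.sub_apply, Matrix.mulVec_diagonal]
  refine Finset.sum_congr rfl fun i _ => ?_
  simp only [mulVec, dotProduct]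
  rw [mul_sub, Finset.sum_mul, Finset.mul_sum, Finset.mul_sum, ← Finset.sum_sub_distrib]
  refine Finset.sum_congr rfl fun j _ => ?_
  ring

theorem adj_le_one (E : Fin n → Fin n → Prop) (i j : Fin n) : adj E i j ≤ 1 := by
  unfold adj; split_ifs <;> norm_num

theorem adj_nonneg (E : Fin n → Fin n → Prop) (i j : Fin n) : 0 ≤ adj E i j := by
  unfold adj; split_ifs <;> norm_num

theorem abs_le_one_of_unit (x : Fin n → ℝ) (h : ∑ i, x i ^ 2 = 1) (i : Fin n) : |x i| ≤ 1 := by
  have h1 : x i ^ 2 ≤ 1 := by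
    rw [← h]
    exact Finset.single_le_sum (f := fun i => x i ^ 2) (fun j _ => sq_nonneg _) (Finset.mem_univ i)
  exact abs_le_one_iff_mul_self_le_one.2 (by nlinarith)

theorem quad_abs_le (E : Fin n → Fin n → Prop) (x : Fin n → ℝ) (h : ∑ i, x i ^ 2 = 1) :
    |quad E x| ≤ 2 * (n : ℝ) * n := by
  unfold quad
  calc |∑ i, ∑ j, adj E i j * (x i * (x i - x j))|
      ≤ ∑ i, |∑ j, adj E i j * (x i * (x i - x j))| := Finset.abs_sum_le_sum_abs _ _
    _ ≤ ∑ i : Fin n, ∑ j : Fin n, (2 : ℝ) := by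
        refine Finset.sum_le_sum fun i _ => ?_
        refine (Finset.abs_sum_le_sum_abs _ _).trans (Finset.sum_le_sum fun j _ => ?_)
        rw [abs_mul, abs_mul]
        have h1 := abs_le_one_of_unit x h i
        have h2 := abs_le_one_of_unit x h j
        have h3 : |x i - x j| ≤ 2 := by
          have := abs_sub (x i) (x j)
          linarith
        have h4 : |adj E i j| ≤ 1 := by
          rw [abs_of_nonneg (adj_nonneg E i j)]
          exact adj_le_one E i j
        have h5 : 0 ≤ |x i| := abs_nonneg _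
        have h6 : 0 ≤ |x i - x j| := abs_nonneg _
        have h7 : |x i| * |x i - x j| ≤ 2 := by nlinarith
        nlinarith [abs_nonneg (adj E i j), mul_nonneg h5 h6]
    _ = 2 * (n : ℝ) * n := by
        simp
        ring

theorem values_bddAbove (E : Fin n → Fin n → Prop) : BddAbove (values E) := by
  refine ⟨2 * (n : ℝ) * n, ?_⟩
  rintro r ⟨x, _, h1, rfl⟩
  rw [quad_eq]
  exact (abs_le.1 (quad_abs_le E x h1)).2

theorem values_bddBelow (E : Fin n → Fin n → Prop) : BddBelow (values E) := by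
  refine ⟨-(2 * (n : ℝ) * n), ?_⟩
  rintro r ⟨x, _, h1, rfl⟩
  rw [quad_eq]
  exact (abs_le.1 (quad_abs_le E x h1)).1

theorem quad_smul (E : Fin n → Fin n → Prop) (t : ℝ) (x : Fin n → ℝ) :
    quad E (fun i => t * x i) = t ^ 2 * quad E x := by
  unfold quad
  rw [Finset.mul_sum]
  refine Finset.sum_congr rfl fun i _ => ?_
  rw [Finset.mul_sum]
  refine Finset.sum_congr rfl fun j _ => ?_
  ring

theorem alpha_mul_le (E : Fin n → Fin n → Prop) (x : Fin n → ℝ) (hx : ∑ i, x i = 0) :
    alpha E * ∑ i, x i ^ 2 ≤ quad E x := by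
  rcases (Finset.sum_nonneg (fun i _ => sq_nonneg (x i)) : (0 : ℝ) ≤ ∑ i, x i ^ 2).eq_or_lt with h | h
  · rw [← h, mul_zero]
    have h0 : ∀ i, x i = 0 := by
      intro i
      have := (Finset.sum_eq_zero_iff_of_nonneg (fun i _ => sq_nonneg (x i))).1 h.symm i
        (Finset.mem_univ i)
      exact pow_eq_zero_iff (two_ne_zero) |>.1 this
    unfold quad
    simp [h0]
  · set S := ∑ i, x i ^ 2 with hS
    have hs : 0 < Real.sqrt S := Real.sqrt_pos.2 h
    have hs2 : Real.sqrt S ^ 2 = S := Real.sq_sqrt h.le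
    have hmem : quad E (fun i => (Real.sqrt S)⁻¹ * x i) ∈ values E := by
      refine ⟨fun i => (Real.sqrt S)⁻¹ * x i, ?_, ?_, (quad_eq E _).symm⟩
      · rw [← Finset.mul_sum, hx, mul_zero]
      · simp only [mul_pow]
        rw [← Finset.mul_sum, ← hS, inv_pow, hs2, inv_mul_cancel₀ h.ne']
    have h1 := csInf_le (values_bddBelow E) hmem
    rw [quad_smul, inv_pow, hs2] at h1
    have h2 : alpha E ≤ S⁻¹ * quad E x := h1
    calc alpha E * S ≤ (S⁻¹ * quad E x) * S := by
          exact mul_le_mul_of_nonneg_right h2 h.le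
      _ = quad E x := by field_simp

theorem le_beta_mul (E : Fin n → Fin n → Prop) (x : Fin n → ℝ) (hx : ∑ i, x i = 0) :
    quad E x ≤ beta E * ∑ i, x i ^ 2 := by
  rcases (Finset.sum_nonneg (fun i _ => sq_nonneg (x i)) : (0 : ℝ) ≤ ∑ i, x i ^ 2).eq_or_lt with h | h
  · rw [← h, mul_zero]
    have h0 : ∀ i, x i = 0 := by
      intro i
      have := (Finset.sum_eq_zero_iff_of_nonneg (fun i _ => sq_nonneg (x i))).1 h.symm i
        (Finset.mem_univ i)
      exact pow_eq_zero_iff (two_ne_zero) |>.1 this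
    unfold quad
    simp [h0]
  · set S := ∑ i, x i ^ 2 with hS
    have hs : 0 < Real.sqrt S := Real.sqrt_pos.2 h
    have hs2 : Real.sqrt S ^ 2 = S := Real.sq_sqrt h.le
    have hmem : quad E (fun i => (Real.sqrt S)⁻¹ * x i) ∈ values E := by
      refine ⟨fun i => (Real.sqrt S)⁻¹ * x i, ?_, ?_, (quad_eq E _).symm⟩
      · rw [← Finset.mul_sum, hx, mul_zero]
      · simp only [mul_pow]
        rw [← Finset.mul_sum, ← hS, inv_pow, hs2, inv_mul_cancel₀ h.ne']
    have h1 := le_csSup (values_bddAbove E) hmem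
    rw [quad_smul, inv_pow, hs2] at h1
    have h2 : S⁻¹ * quad E x ≤ beta E := h1
    calc quad E x = (S⁻¹ * quad E x) * S := by field_simp
      _ ≤ beta E * S := mul_le_mul_of_nonneg_right h2 h.le

theorem values_nonempty (hn : 2 ≤ n) (E : Fin n → Fin n → Prop) : (values E).Nonempty := by
  obtain ⟨m, rfl⟩ : ∃ m, n = m + 2 := ⟨n - 2, by omega⟩
  refine ⟨_, ⟨fun i => if i = 0 then (Real.sqrt 2)⁻¹ else if i = 1 then -(Real.sqrt 2)⁻¹ else 0,
    ?_, ?_, rfl⟩⟩
  · rw [Fin.sum_univ_succ, Fin.sum_univ_succ]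
    have h1 : ∀ i : Fin m, i.succ.succ ≠ (0 : Fin (m + 2)) := fun i => Fin.succ_ne_zero _
    have h2 : ∀ i : Fin m, i.succ.succ ≠ (1 : Fin (m + 2)) := by
      intro i h
      have := congrArg Fin.val h
      simp at this
    simp [h1, h2]
  · rw [Fin.sum_univ_succ, Fin.sum_univ_succ]
    have h1 : ∀ i : Fin m, i.succ.succ ≠ (0 : Fin (m + 2)) := fun i => Fin.succ_ne_zero _
    have h2 : ∀ i : Fin m, i.succ.succ ≠ (1 : Fin (m + 2)) := by
      intro i h
      have := congrArg Fin.val h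
      simp at this
    simp [h1, h2]
    norm_num

theorem alpha_le_beta (hn : 2 ≤ n) (E : Fin n → Fin n → Prop) : alpha E ≤ beta E := by
  obtain ⟨r, hr⟩ := values_nonempty hn E
  exact (csInf_le (values_bddBelow E) hr).trans (le_csSup (values_bddAbove E) hr)

/-- if the form is a multiple of the norm, the spread vanishes -/
theorem spread_eq_zero (hn : 2 ≤ n) (E : Fin n → Fin n → Prop) (k : ℝ)
    (h : ∀ x : Fin n → ℝ, ∑ i, x i = 0 → quad E x = k * ∑ i, x i ^ 2) : spread E = 0 := by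
  have h1 : values E = {k} := by
    apply Set.eq_singleton_iff_nonempty_unique_mem.2
    refine ⟨values_nonempty hn E, ?_⟩
    rintro r ⟨x, hx, hx1, rfl⟩
    rw [quad_eq, h x hx, hx1, mul_one]
  unfold spread alpha beta
  rw [h1, csSup_singleton, csInf_singleton, sub_self]

/-- the row bound for a symmetric matrix with zero row sums -/
theorem row_bound (hn : 0 < n) (H : Matrix (Fin n) (Fin n) ℝ) (hs : ∀ i j, H i j = H j i)
    (h0 : ∀ i, ∑ j, H i j = 0) (a b : ℝ) (hab : a ≤ b)
    (hH : ∀ x : Fin n → ℝ, ∑ i, x i = 0 →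
      a * ∑ i, x i ^ 2 ≤ x ⬝ᵥ (H *ᵥ x) ∧ x ⬝ᵥ (H *ᵥ x) ≤ b * ∑ i, x i ^ 2) (i : Fin n) :
    ∑ j, H i j ^ 2 - (a + b) * H i i + ((a + b) / 2) ^ 2 * (1 - 1 / n) ≤
      ((b - a) / 2) ^ 2 * (1 - 1 / n) := by
  have hn' : (n : ℝ) ≠ 0 := by exact_mod_cast hn.ne'
  have hHt : Hᵀ = H := by ext i j; exact hs j i
  set c := (a + b) / 2 with hc
  set r := (b - a) / 2 with hr
  have hr0 : 0 ≤ r := by rw [hr]; linarith
  let x : Fin n → ℝ := fun j => (if j = i then 1 else 0) - 1 / n
  let y : Fin n → ℝ := fun j => H j i - c * x j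
  have hxs : ∑ j, x j = 0 := by
    simp only [x, Finset.sum_sub_distrib]
    simp [hn']
  have hcol : ∀ k, ∑ j, H j k = 0 := by
    intro k
    rw [← h0 k]
    exact Finset.sum_congr rfl fun j _ => hs j k
  have hys : ∑ j, y j = 0 := by
    simp only [y, Finset.sum_sub_distrib, ← Finset.mul_sum, hxs, hcol, mul_zero, sub_zero]
  have hHx : H *ᵥ x = fun j => y j + c * x j := by
    funext j
    simp only [mulVec, dotProduct, x, y]
    simp only [mul_sub, Finset.sum_sub_distrib, ← Finset.sum_mul, h0 j]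
    simp
  have hxx : ∑ j, x j ^ 2 = 1 - 1 / n := by
    have : ∀ j, x j ^ 2 = (if j = i then 1 else 0) * (1 - 2 / n) + 1 / (n : ℝ) ^ 2 := by
      intro j
      simp only [x]
      split_ifs
      · field_simp; ring
      · field_simp; ring
    simp only [this, Finset.sum_add_distrib, ← Finset.sum_mul]
    simp
    field_simp
    ring
  have hxH : ∑ j, H j i * x j = H i i := by
    simp only [x, mul_sub, Finset.sum_sub_distrib, ← Finset.sum_mul, hcol]
    simp
  have hyy : ∑ j, y j ^ 2 = ∑ j, H i j ^ 2 - 2 * c * H i i + c ^ 2 * (1 - 1 / n) := by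
    have : ∀ j, y j ^ 2 = H i j ^ 2 - 2 * c * (H j i * x j) + c ^ 2 * x j ^ 2 := by
      intro j
      simp only [y, hs i j]
      ring
    simp only [this, Finset.sum_add_distrib, Finset.sum_sub_distrib, ← Finset.mul_sum, hxH, hxx]
  have key : ∀ t : ℝ, 4 * t * ∑ j, y j ^ 2 ≤ 2 * r * (t ^ 2 * ∑ j, x j ^ 2 + ∑ j, y j ^ 2) := by
    intro t
    have hsp : ∑ j, (t * x j + y j) = 0 := by
      rw [Finset.sum_add_distrib, ← Finset.mul_sum, hxs, hys]; ring
    have hsm : ∑ j, (t * x j - y j) = 0 := by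
      rw [Finset.sum_sub_distrib, ← Finset.mul_sum, hxs, hys]; ring
    have h1 := (hH (fun j => t * x j + y j) hsp).2
    have h2 := (hH (fun j => t * x j - y j) hsm).1
    have e1 : (fun j => t * x j + y j) = t • x + y := by
      funext j; simp
    have e2 : (fun j => t * x j - y j) = t • x - y := by
      funext j; simp
    have hsym : y ⬝ᵥ (H *ᵥ x) = x ⬝ᵥ (H *ᵥ y) := by
      rw [Matrix.dotProduct_mulVec, ← Matrix.mulVec_transpose, hHt, dotProduct_comm]
    have hpol : (t • x + y) ⬝ᵥ (H *ᵥ (t • x + y)) - (t • x - y) ⬝ᵥ (H *ᵥ (t • x - y)) =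
        4 * t * (y ⬝ᵥ (H *ᵥ x)) := by
      simp only [Matrix.mulVec_add, Matrix.mulVec_sub, Matrix.mulVec_smul, dotProduct_add,
        dotProduct_sub, add_dotProduct, sub_dotProduct, smul_dotProduct, dotProduct_smul,
        smul_eq_mul, hsym]
      ring
    have hyHx : y ⬝ᵥ (H *ᵥ x) = ∑ j, y j ^ 2 + c * ∑ j, x j * y j := by
      rw [hHx]
      simp only [dotProduct, Finset.mul_sum, ← Finset.sum_add_distrib]
      exact Finset.sum_congr rfl fun j _ => by ring
    have s1 : ∑ j, (t * x j + y j) ^ 2 = t ^ 2 * ∑ j, x j ^ 2 + 2 * t * ∑ j, x j * y j +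
        ∑ j, y j ^ 2 := by
      simp only [Finset.mul_sum, ← Finset.sum_add_distrib]
      exact Finset.sum_congr rfl fun j _ => by ring
    have s2 : ∑ j, (t * x j - y j) ^ 2 = t ^ 2 * ∑ j, x j ^ 2 - 2 * t * ∑ j, x j * y j +
        ∑ j, y j ^ 2 := by
      simp only [Finset.mul_sum, ← Finset.sum_add_distrib, ← Finset.sum_sub_distrib]
      exact Finset.sum_congr rfl fun j _ => by ring
    rw [e1, ← e1, s1] at h1
    rw [e2, ← e2, s2] at h2
    rw [e1] at h1
    rw [e2] at h2
    rw [hyHx] at hpol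
    have hb : b = c + r := by rw [hc, hr]; ring
    have ha : a = c - r := by rw [hc, hr]; ring
    rw [hb] at h1
    rw [ha] at h2
    linarith
  have hxx0 : 0 ≤ ∑ j, x j ^ 2 := Finset.sum_nonneg fun j _ => sq_nonneg _
  have hfin : ∑ j, y j ^ 2 ≤ r ^ 2 * ∑ j, x j ^ 2 := by
    rcases hr0.eq_or_lt with h | h
    · have := key 1
      rw [← h] at this ⊢
      linarith
    · have := key r
      have h3 : r * (∑ j, y j ^ 2) ≤ r * (r ^ 2 * ∑ j, x j ^ 2) := by linarith
      exact le_of_mul_le_mul_left h3 h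
  rw [hyy, hxx] at hfin
  have : (a + b) = 2 * c := by rw [hc]; ring
  rw [this]
  linarith

end Pool.Agent.Q257.Lap
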