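import Pool.Agent.Q257.Lap.Basic

set_option autoImplicit false

/-!
# Test vectors for the Laplacian form
-/

namespace Pool.Agent.Q257.Lap

open Finset Matrix

variable {n : ℕ}

/-- out-degree as a real number -/
noncomputable def dg (E : Fin n → Fin n → Prop) (i : Fin n) : ℝ := ∑ j, adj E i j

theorem quad_expand (E : Fin n → Fin n → Prop) (x : Fin n → ℝ) :
    quad E x = ∑ i, dg E i * x i ^ 2 - ∑ i, ∑ j, adj E i j * (x i * x j) := by
  unfold quad dg
  rw [← Finset.sum_sub_distrib]
  refine Finset.sum_congr rfl fun i _ => ?_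
  rw [Finset.sum_mul, ← Finset.sum_sub_distrib]
  refine Finset.sum_congr rfl fun j _ => ?_
  ring

/-- the vector `e_p - e_q` -/
def vec2 (p q : Fin n) : Fin n → ℝ := fun k => (if k = p then 1 else 0) - (if k = q then 1 else 0)

theorem vec2_sum (p q : Fin n) : ∑ k, vec2 p q k = 0 := by
  simp [vec2]

theorem sum_mul_vec2 (f : Fin n → ℝ) (p q : Fin n) : ∑ k, f k * vec2 p q k = f p - f q := by
  simp [vec2, mul_sub]

theorem vec2_sq (p q : Fin n) (h : p ≠ q) (k : Fin n) :
    vec2 p q k ^ 2 = (if k = p then 1 else 0) + (if k = q then 1 else 0) := by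
  unfold vec2
  by_cases h1 : k = p <;> by_cases h2 : k = q
  · exact absurd (h1.symm.trans h2) h
  · simp [h1, h]
  · simp [h2, h.symm]
  · simp [h1, h2]

theorem vec2_norm (p q : Fin n) (h : p ≠ q) : ∑ k, vec2 p q k ^ 2 = 2 := by
  simp only [vec2_sq p q h, Finset.sum_add_distrib]
  simp
  norm_num

theorem quad_vec2 (E : Fin n → Fin n → Prop) (hE : ∀ i, ¬ E i i) (p q : Fin n) (h : p ≠ q) :
    quad E (vec2 p q) = dg E p + dg E q + adj E p q + adj E q p := by
  rw [quad_expand]
  have h1 : ∑ i, dg E i * vec2 p q i ^ 2 = dg E p + dg E q := by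
    simp only [vec2_sq p q h, mul_add, Finset.sum_add_distrib]
    simp
  have h2 : ∑ i, ∑ j, adj E i j * (vec2 p q i * vec2 p q j) =
      (adj E p p - adj E p q) - (adj E q p - adj E q q) := by
    have : ∀ i, ∑ j, adj E i j * (vec2 p q i * vec2 p q j) =
        (adj E i p - adj E i q) * vec2 p q i := by
      intro i
      rw [← sum_mul_vec2 (fun j => adj E i j) p q, Finset.sum_mul]
      exact Finset.sum_congr rfl fun j _ => by ring
    simp only [this]
    rw [sum_mul_vec2 (fun i => adj E i p - adj E i q) p q]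
  have h3 : adj E p p = 0 := by simp [adj, hE]
  have h4 : adj E q q = 0 := by simp [adj, hE]
  rw [h1, h2, h3, h4]
  ring

theorem pair_le_beta (E : Fin n → Fin n → Prop) (hE : ∀ i, ¬ E i i) (p q : Fin n) (h : p ≠ q) :
    dg E p + dg E q + adj E p q + adj E q p ≤ 2 * beta E := by
  have := le_beta_mul E (vec2 p q) (vec2_sum p q)
  rw [quad_vec2 E hE p q h, vec2_norm p q h] at this
  linarith

theorem alpha_le_pair (E : Fin n → Fin n → Prop) (hE : ∀ i, ¬ E i i) (p q : Fin n) (h : p ≠ q) :
    2 * alpha E ≤ dg E p + dg E q + adj E p q + adj E q p := by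
  have := alpha_mul_le E (vec2 p q) (vec2_sum p q)
  rw [quad_vec2 E hE p q h, vec2_norm p q h] at this
  linarith

theorem sum_ind (N a b : ℕ) (h : a ≤ b) (hb : b ≤ N) :
    ∑ i : Fin N, (if a ≤ i.val ∧ i.val < b then (1 : ℝ) else 0) = (b : ℝ) - a := by
  rw [Fin.sum_univ_eq_sum_range (fun k => if a ≤ k ∧ k < b then (1 : ℝ) else 0) N,
    ← Finset.sum_filter]
  have : (Finset.range N).filter (fun k => a ≤ k ∧ k < b) = Finset.Ico a b := by
    ext k
    simp only [Finset.mem_filter, Finset.mem_range, Finset.mem_Ico]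
    omega
  rw [this]
  simp [Nat.cast_sub h]

end Pool.Agent.Q257.Lap
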