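import Pool.Agent.Q257.Lap.Struct
import Pool.Agent.Q257.Lap.Tests

set_option autoImplicit false

/-!
# Digraphs with Laplacian spread between zero and one
-/

namespace Pool.Agent.Q257.Lap

open Finset

variable {n : ℕ}

/-- the pair sums `d_i + d_j + a_ij + a_ji` -/
noncomputable def pr (E : Fin n → Fin n → Prop) (i j : Fin n) : ℝ :=
  dg E i + dg E j + adj E i j + adj E j i

lemma adj_int (E : Fin n → Fin n → Prop) (i j : Fin n) : ∃ k : ℤ, adj E i j = k := by
  unfold adj
  split_ifs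
  · exact ⟨1, by simp⟩
  · exact ⟨0, by simp⟩

lemma dg_int (E : Fin n → Fin n → Prop) (i : Fin n) : ∃ k : ℤ, dg E i = k := by
  choose f hf using fun j => adj_int E i j
  exact ⟨∑ j, f j, by unfold dg; push_cast; exact Finset.sum_congr rfl fun j _ => hf j⟩

lemma pr_int (E : Fin n → Fin n → Prop) (i j : Fin n) : ∃ k : ℤ, pr E i j = k := by
  obtain ⟨a, ha⟩ := dg_int E i
  obtain ⟨b, hb⟩ := dg_int E j
  obtain ⟨c, hc⟩ := adj_int E i j
  obtain ⟨d, hd⟩ := adj_int E j i
  exact ⟨a + b + c + d, by unfold pr; rw [ha, hb, hc, hd]; push_cast; ring⟩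

lemma pr_symm (E : Fin n → Fin n → Prop) (i j : Fin n) : pr E i j = pr E j i := by
  unfold pr; ring

/-- `G` records the pairs with the larger pair sum -/
def Rec (E : Fin n → Fin n → Prop) (m : ℤ) (G : SimpleGraph (Fin n)) : Prop :=
  ∀ i j, i ≠ j → pr E i j = m + wt G i j

lemma exists_rec (E : Fin n → Fin n → Prop) (hE : ∀ i, ¬ E i i) (h : spread E < 1) :
    ∃ (m : ℤ) (G : SimpleGraph (Fin n)), Rec E m G := by
  classical
  set m : ℤ := ⌈2 * alpha E⌉ with hm
  have hpr : ∀ i j, i ≠ j → pr E i j = m ∨ pr E i j = m + 1 := by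
    intro i j hij
    obtain ⟨k, hk⟩ := pr_int E i j
    have h1 := alpha_le_pair E hE i j hij
    have h2 := pair_le_beta E hE i j hij
    have h3 : (2 * alpha E : ℝ) ≤ k := by rw [← hk]; exact h1
    have h4 : (k : ℝ) ≤ 2 * beta E := by rw [← hk]; exact h2
    have h5 : m ≤ k := Int.ceil_le.2 h3
    have h6 : (k : ℝ) < m + 2 := by
      have : 2 * alpha E ≤ (m : ℝ) := Int.le_ceil _
      unfold spread at h
      linarith
    have h7 : k < m + 2 := by exact_mod_cast h6
    have h8 : k = m ∨ k = m + 1 := by omega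
    rcases h8 with h8 | h8
    · left; rw [hk, h8]
    · right; rw [hk, h8]; push_cast; ring
  refine ⟨m, { Adj := fun i j => i ≠ j ∧ pr E i j = m + 1
               symm := ⟨fun i j hij => ⟨hij.1.symm, by rw [pr_symm]; exact hij.2⟩⟩
               loopless := ⟨fun i hi => hi.1 rfl⟩ }, ?_⟩
  intro i j hij
  rcases hpr i j hij with h1 | h1
  · rw [wt_not, h1, add_zero]
    rintro ⟨_, h2⟩
    rw [h1] at h2
    linarith
  · rw [wt_adj, h1]
    exact ⟨hij, h1⟩

lemma wt_self {V : Type} (G : SimpleGraph V) (i : V) : wt G i i = 0 :=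
  if_neg (fun h => h.ne rfl)

lemma wt_symm {V : Type} (G : SimpleGraph V) (i j : V) : wt G i j = wt G j i := by
  classical
  unfold wt
  simp only [SimpleGraph.adj_comm]

lemma adj_self (E : Fin n → Fin n → Prop) (hE : ∀ i, ¬ E i i) (i : Fin n) : adj E i i = 0 := by
  unfold adj; simp [hE]

/-- bilinear version of the quadratic form -/
lemma quad_formula (E : Fin n → Fin n → Prop) (hE : ∀ i, ¬ E i i) {m : ℤ}
    {G : SimpleGraph (Fin n)} (hR : Rec E m G) (x : Fin n → ℝ) (hx : ∑ i, x i = 0) :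
    quad E x = (m : ℝ) / 2 * ∑ i, x i ^ 2 - 1 / 2 * ∑ i, ∑ j, wt G i j * (x i * x j) := by
  rw [quad_expand]
  have h1 : ∑ i, ∑ j, adj E i j * (x i * x j) = ∑ i, ∑ j, adj E j i * (x i * x j) := by
    rw [Finset.sum_comm]
    apply Finset.sum_congr rfl; intro i _
    apply Finset.sum_congr rfl; intro j _
    ring
  have h2 : ∀ i j, (adj E i j + adj E j i) * (x i * x j) =
      ((m : ℝ) * (x i * x j) + wt G i j * (x i * x j) - dg E i * x i * x j - x i * (dg E j * x j)) -
      (if i = j then ((m : ℝ) * (x i * x j) - dg E i * x i * x j - x i * (dg E j * x j)) else 0) := by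
    intro i j
    by_cases hij : i = j
    · subst hij
      rw [adj_self E hE, wt_self]; simp
    · have := hR i j hij
      unfold pr at this
      rw [if_neg hij]
      linear_combination (x i * x j) * this
  have h3 : ∑ i, ∑ j, (adj E i j + adj E j i) * (x i * x j) =
      ∑ i, ∑ j, wt G i j * (x i * x j) - (m : ℝ) * ∑ i, x i ^ 2 + 2 * ∑ i, dg E i * x i ^ 2 := by
    simp only [h2, Finset.sum_sub_distrib, Finset.sum_add_distrib]
    simp only [← Finset.mul_sum, hx, mul_zero, Finset.sum_const_zero, Finset.sum_ite_eq,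
      Finset.mem_univ, if_true]
    rw [← Finset.sum_mul, hx, zero_mul, Finset.mul_sum, Finset.mul_sum]
    have : ∀ i, (m : ℝ) * (x i * x i) - dg E i * x i * x i - x i * (dg E i * x i) =
        (m : ℝ) * x i ^ 2 - 2 * (dg E i * x i ^ 2) := by intro i; ring
    simp only [this, Finset.sum_sub_distrib]
    ring
  have h4 : ∑ i, ∑ j, (adj E i j + adj E j i) * (x i * x j) =
      2 * ∑ i, ∑ j, adj E i j * (x i * x j) := by
    simp only [add_mul, Finset.sum_add_distrib]
    rw [← h1]; ring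
  rw [h4] at h3
  linarith

/-- the adjacency form is symmetric -/
lemma form_symm {V : Type} [Fintype V] (G : SimpleGraph V) (u v : V → ℝ) :
    ∑ i, ∑ j, wt G i j * (u i * v j) = ∑ i, ∑ j, wt G i j * (v i * u j) := by
  rw [Finset.sum_comm]
  apply Finset.sum_congr rfl; intro i _
  apply Finset.sum_congr rfl; intro j _
  rw [wt_symm]; ring

lemma small_of_rec (E : Fin n → Fin n → Prop) (hE : ∀ i, ¬ E i i) (h : spread E < 1) {m : ℤ}
    {G : SimpleGraph (Fin n)} (hR : Rec E m G) : Small G := by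
  intro u v hu hv huv hu0 hv0
  set A := ∑ i, u i ^ 2 with hA
  set B := ∑ i, v i ^ 2 with hB
  set T := ∑ i, ∑ j, wt G i j * (u i * v j) with hT
  have hsA : Real.sqrt A ^ 2 = A := Real.sq_sqrt hu0.le
  have hsB : Real.sqrt B ^ 2 = B := Real.sq_sqrt hv0.le
  set a := Real.sqrt A with ha
  set b := Real.sqrt B with hb
  have ha0 : 0 < a := Real.sqrt_pos.2 hu0
  have hb0 : 0 < b := Real.sqrt_pos.2 hv0
  -- the two test vectors
  have key : ∀ s t : ℝ, quad E (fun i => s * u i + t * v i) =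
      (m : ℝ) / 2 * (s ^ 2 * A + t ^ 2 * B) - 1 / 2 * (s ^ 2 * ∑ i, ∑ j, wt G i j * (u i * u j) +
        2 * s * t * T + t ^ 2 * ∑ i, ∑ j, wt G i j * (v i * v j)) ∧
      ∑ i, (s * u i + t * v i) ^ 2 = s ^ 2 * A + t ^ 2 * B ∧
      ∑ i, (s * u i + t * v i) = 0 := by
    intro s t
    have e1 : ∑ i, (s * u i + t * v i) = 0 := by
      rw [Finset.sum_add_distrib, ← Finset.mul_sum, ← Finset.mul_sum, hu, hv]; ring
    have e2 : ∑ i, (s * u i + t * v i) ^ 2 = s ^ 2 * A + t ^ 2 * B := by
      have : ∀ i, (s * u i + t * v i) ^ 2 = s ^ 2 * u i ^ 2 + 2 * s * t * (u i * v i) +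
          t ^ 2 * v i ^ 2 := by intro i; ring
      simp only [this, Finset.sum_add_distrib, ← Finset.mul_sum, huv]
      ring
    refine ⟨?_, e2, e1⟩
    rw [quad_formula E hE hR _ e1, e2]
    have e3 : ∑ i, ∑ j, wt G i j * ((s * u i + t * v i) * (s * u j + t * v j)) =
        s ^ 2 * ∑ i, ∑ j, wt G i j * (u i * u j) + s * t * T +
        s * t * ∑ i, ∑ j, wt G i j * (v i * u j) +
        t ^ 2 * ∑ i, ∑ j, wt G i j * (v i * v j) := by
      rw [hT]
      simp only [Finset.mul_sum, ← Finset.sum_add_distrib]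
      apply Finset.sum_congr rfl; intro i _
      apply Finset.sum_congr rfl; intro j _
      ring
    rw [e3, form_symm G v u, ← hT]
    ring
  obtain ⟨p1, p2, p3⟩ := key b a
  obtain ⟨q1, q2, q3⟩ := key b (-a)
  have u1 := le_beta_mul E _ p3
  have u2 := alpha_mul_le E _ p3
  have u3 := le_beta_mul E _ q3
  have u4 := alpha_mul_le E _ q3
  rw [p1, p2, hsA, hsB] at u1 u2
  rw [q1, q2, neg_sq, hsA, hsB] at u3 u4
  have hN : 0 < B * A + A * B := by positivity
  have hlt : (beta E - alpha E) * (B * A + A * B) < 1 * (B * A + A * B) :=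
    mul_lt_mul_of_pos_right (by unfold spread at h; exact h) hN
  have hab : (a * b) ^ 2 = A * B := by rw [mul_pow, hsA, hsB]
  have hab0 : 0 < a * b := mul_pos ha0 hb0
  set UU := ∑ i, ∑ j, wt G i j * (u i * u j)
  set VV := ∑ i, ∑ j, wt G i j * (v i * v j)
  have t1 : a * b * T < a * b * (a * b) := by
    have e : a * b * (a * b) = A * B := by rw [← hab]; ring
    rw [e]
    linarith
  have t2 : a * b * (-T) < a * b * (a * b) := by
    have e : a * b * (a * b) = A * B := by rw [← hab]; ring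
    rw [e]
    linarith
  have t3 : T < a * b := lt_of_mul_lt_mul_left t1 hab0.le
  have t4 : -T < a * b := lt_of_mul_lt_mul_left t2 hab0.le
  rw [← hab]
  exact sq_lt_sq' (by linarith) t3

end Pool.Agent.Q257.Lap
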