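import Pool.Agent.Q257.Lap.Gap

set_option autoImplicit false

/-!
# Digraphs with Laplacian spread between zero and one: divisibility and order four
-/

namespace Pool.Agent.Q257.Lap

open Finset

variable {n : ℕ}

lemma nontriv (hn : 2 ≤ n) (E : Fin n → Fin n → Prop) (hE : ∀ i, ¬ E i i) (h0 : 0 < spread E)
    {m : ℤ} {G : SimpleGraph (Fin n)} (hR : Rec E m G) :
    (∃ p q, G.Adj p q) ∧ ∃ r s, r ≠ s ∧ ¬ G.Adj r s := by
  constructor
  · by_contra hcon
    push Not at hcon
    have : spread E = 0 := by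
      apply spread_eq_zero hn E ((m : ℝ) / 2)
      intro x hx
      rw [quad_formula E hE hR x hx]
      simp only [wt_not (hcon _ _), zero_mul, Finset.sum_const_zero, mul_zero, sub_zero]
    linarith
  · by_contra hcon
    push Not at hcon
    have : spread E = 0 := by
      apply spread_eq_zero hn E ((m : ℝ) / 2 + 1 / 2)
      intro x hx
      rw [quad_formula E hE hR x hx]
      have h1 : ∀ i j, wt G i j * (x i * x j) = x i * x j - (if i = j then x i * x j else 0) := by
        intro i j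
        by_cases hij : i = j
        · subst hij; rw [wt_self]; simp
        · rw [wt_adj (hcon i j hij), if_neg hij]; ring
      simp only [h1, Finset.sum_sub_distrib, ← Finset.mul_sum, hx, mul_zero,
        Finset.sum_const_zero, Finset.sum_ite_eq, Finset.mem_univ, if_true]
      simp only [← sq]
      ring
    linarith

lemma sum_wt {V : Type} [Fintype V] (G : SimpleGraph V) :
    ∑ i, ∑ j, wt G i j = (tot G : ℝ) := by
  classical
  unfold tot
  push_cast
  apply Finset.sum_congr rfl
  intro i _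
  unfold Nb wt
  rw [Finset.card_filter]
  push_cast
  rfl

lemma dvd_tot (E : Fin n → Fin n → Prop) (hE : ∀ i, ¬ E i i) {m : ℤ}
    {G : SimpleGraph (Fin n)} (hR : Rec E m G) : n ∣ tot G := by
  have h1 : ∀ i j, dg E i + dg E j + adj E i j + adj E j i =
      (m : ℝ) + wt G i j + (if i = j then 2 * dg E i - m else 0) := by
    intro i j
    by_cases hij : i = j
    · subst hij; rw [adj_self E hE, wt_self]; simp; ring
    · have := hR i j hij
      unfold pr at this
      rw [if_neg hij]; linarith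
  have h2 : ∑ i, ∑ j, (dg E i + dg E j + adj E i j + adj E j i) =
      ∑ i, ∑ j, ((m : ℝ) + wt G i j + (if i = j then 2 * dg E i - m else 0)) :=
    Finset.sum_congr rfl fun i _ => Finset.sum_congr rfl fun j _ => h1 i j
  simp only [Finset.sum_add_distrib, Finset.sum_const, Finset.card_univ, Fintype.card_fin,
    nsmul_eq_mul, Finset.sum_ite_eq, Finset.mem_univ, if_true, sum_wt, Finset.sum_sub_distrib,
    ← Finset.mul_sum] at h2
  have h3 : ∑ i, ∑ j, adj E i j = ∑ i, dg E i := rfl
  have h4 : ∑ i, ∑ j, adj E j i = ∑ i, dg E i := by rw [Finset.sum_comm]; rfl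
  rw [h3, h4] at h2
  choose k hk using fun i => dg_int E i
  have h5 : ∑ i, dg E i = ((∑ i, k i : ℤ) : ℝ) := by
    push_cast; exact Finset.sum_congr rfl fun i _ => hk i
  rw [h5] at h2
  have h6 : ((tot G : ℤ) : ℝ) = ((n * (2 * (∑ i, k i) - (n - 1) * m) : ℤ) : ℝ) := by
    push_cast at h2 ⊢
    linarith
  have h7 : (tot G : ℤ) = n * (2 * (∑ i, k i) - (n - 1) * m) := by exact_mod_cast h6
  have h8 : (n : ℤ) ∣ (tot G : ℤ) := ⟨_, h7⟩
  exact_mod_cast h8

/-- A digraph with spread strictly between zero and one has order four; structure. -/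
theorem gap_struct (hn : 2 ≤ n) (E : Fin n → Fin n → Prop) (hE : ∀ i, ¬ E i i)
    (h0 : 0 < spread E) (h1 : spread E < 1) :
    ∃ (m : ℤ) (G H : SimpleGraph (Fin n)) (a b c z : Fin n), Rec E m G ∧ (H = G ∨ H = Gᶜ) ∧
      H.Adj a b ∧ H.Adj a c ∧ ¬ H.Adj b c ∧ b ≠ c ∧ (∀ y, ¬ H.Adj z y) ∧
      (univ : Finset (Fin n)) = {a, b, c, z} := by
  obtain ⟨m, G, hR⟩ := exists_rec E hE h1
  have hG := small_of_rec E hE h1 hR
  obtain ⟨⟨p, q, hpq⟩, r, s, hrs, hrs'⟩ := nontriv hn E hE h0 hR
  have hcard : 3 ≤ n := by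
    by_contra hcon
    have hn2 : n = 2 := by omega
    subst hn2
    have hpq' : p ≠ q := hpq.ne
    have hdec : ∀ p q r s : Fin 2, p ≠ q → r ≠ s → (r = p ∧ s = q) ∨ (r = q ∧ s = p) := by
      decide
    have hrp : (r = p ∧ s = q) ∨ (r = q ∧ s = p) := hdec p q r s hpq' hrs
    rcases hrp with ⟨rfl, rfl⟩ | ⟨rfl, rfl⟩
    · exact hrs' hpq
    · exact hrs' hpq.symm
  obtain ⟨H, a, b, c, z, k1, k2, k3, k4, k5, k6, k7⟩ := struct hG hpq hrs hrs'
    (by rw [Fintype.card_fin]; exact hcard) (by rw [Fintype.card_fin]; exact dvd_tot E hE hR)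
  exact ⟨m, G, H, a, b, c, z, hR, k1, k2, k3, k4, k5, k6, k7⟩

/-- the quadratic form in order four -/
theorem gap_form (hn : 2 ≤ n) (E : Fin n → Fin n → Prop) (hE : ∀ i, ¬ E i i)
    (h0 : 0 < spread E) (h1 : spread E < 1) :
    ∃ (m : ℤ) (s t : ℝ) (a b c z : Fin n), (s = Real.sqrt 3 ∨ s = -Real.sqrt 3) ∧ 0 < t ∧
      (∀ F : Fin n → ℝ, ∑ i, F i = F a + F b + F c + F z) ∧ n = 4 ∧
      [a, b, c, z].Nodup ∧
      ∀ x : Fin n → ℝ, ∑ i, x i = 0 → quad E x = (2 * m + 1 - Real.sqrt 3) / 4 * ∑ i, x i ^ 2 +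
        t * ((x b - x c) ^ 2 / 4 + (x a - s / 2 * (x b + x c)) ^ 2) := by
  obtain ⟨m, G, H, a, b, c, z, hR, hH, hab, hac, hbc, nbc, hz, huniv⟩ :=
    gap_struct hn E hE h0 h1
  have nza : z ≠ a := by rintro rfl; exact hz _ hab
  have nzb : z ≠ b := by rintro rfl; exact hz _ hab.symm
  have nzc : z ≠ c := by rintro rfl; exact hz _ hac.symm
  have nab := hab.ne
  have nac := hac.ne
  have hsum : ∀ F : Fin n → ℝ, ∑ i, F i = F a + F b + F c + F z := by
    intro F
    rw [huniv, Finset.sum_insert, Finset.sum_insert, Finset.sum_insert, Finset.sum_singleton]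
    · ring
    · simpa using nzc.symm
    · simp [nbc, nzb.symm]
    · simp [nab, nac, nza.symm]
  have hn4 : n = 4 := by
    have h2 : (univ : Finset (Fin n)).card = 4 := by
      rw [huniv, card_insert_of_notMem, card_insert_of_notMem, card_insert_of_notMem,
        card_singleton]
      · simpa using nzc.symm
      · simp [nbc, nzb.symm]
      · simp [nab, nac, nza.symm]
    simpa using h2
  have hnd : [a, b, c, z].Nodup := by
    simp [nab, nac, nbc, nza.symm, nzb.symm, nzc.symm]
  have s3 : Real.sqrt 3 ^ 2 = 3 := Real.sq_sqrt (by norm_num)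
  have s1 : 1 < Real.sqrt 3 := by
    rw [show (1 : ℝ) = Real.sqrt 1 by simp]
    exact Real.sqrt_lt_sqrt (by norm_num) (by norm_num)
  have hz' : ∀ y, ¬ H.Adj y z := fun y h => hz y h.symm
  have hcb : ¬ H.Adj c b := fun h => hbc h.symm
  have hQ : ∀ x : Fin n → ℝ, ∑ i, ∑ j, wt H i j * (x i * x j) = 2 * (x a * (x b + x c)) := by
    intro x
    simp only [hsum]
    rw [wt_self, wt_self, wt_self, wt_self, wt_adj hab, wt_adj hac, wt_adj hab.symm,
      wt_adj hac.symm, wt_not hbc, wt_not hcb, wt_not (hz' a), wt_not (hz' b), wt_not (hz' c),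
      wt_not (hz a), wt_not (hz b), wt_not (hz c)]
    ring
  rcases hH with rfl | rfl
  · refine ⟨m, Real.sqrt 3, (Real.sqrt 3 - 1) / 2, a, b, c, z, Or.inl rfl, by linarith, hsum, hn4,
      hnd, ?_⟩
    intro x hx
    rw [quad_formula E hE hR x hx, hQ]
    rw [hsum] at hx ⊢
    have hxz : x z = -(x a + x b + x c) := by linarith
    rw [hxz]
    set S := Real.sqrt 3
    linear_combination (-(1 / 8 : ℝ) * (S - 1) * (x b + x c) ^ 2 + x a * (x b + x c) / 2) * s3
  · refine ⟨m, -Real.sqrt 3, (Real.sqrt 3 + 1) / 2, a, b, c, z, Or.inr rfl, by linarith, hsum, hn4,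
      hnd, ?_⟩
    intro x hx
    have hc : ∑ i, ∑ j, wt G i j * (x i * x j) = -(∑ i, x i ^ 2) - 2 * (x a * (x b + x c)) := by
      rw [← hQ x]
      have h2 : ∀ i j, wt G i j * (x i * x j) =
          x i * x j - (if i = j then x i * x j else 0) - wt Gᶜ i j * (x i * x j) := by
        intro i j
        by_cases hij : i = j
        · subst hij; rw [wt_self, wt_self]; simp
        · by_cases hG' : G.Adj i j
          · rw [wt_adj hG', wt_not (by simp [SimpleGraph.compl_adj, hG']), if_neg hij]; ring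
          · rw [wt_not hG', wt_adj (by simp [SimpleGraph.compl_adj, hG', hij]), if_neg hij]; ring
      simp only [h2, Finset.sum_sub_distrib, ← Finset.mul_sum, hx, mul_zero,
        Finset.sum_const_zero, Finset.sum_ite_eq, Finset.mem_univ, if_true]
      simp only [← sq]
      ring
    rw [quad_formula E hE hR x hx, hc]
    rw [hsum] at hx ⊢
    have hxz : x z = -(x a + x b + x c) := by linarith
    rw [hxz]
    set S := Real.sqrt 3
    linear_combination (-(1 / 8 : ℝ) * (S + 1) * (x b + x c) ^ 2 - x a * (x b + x c) / 2) * s3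

end Pool.Agent.Q257.Lap
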