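import Mathlib

/-!
# Restrictor matrices and eigenvalues
-/

set_option autoImplicit false

namespace Pool.Agent.Q257.Lap

open Matrix Finset

lemma exists_restrictor (n : ℕ) : ∃ Q : Matrix (Fin (n + 1)) (Fin n) ℂ,
    Qᴴ * Q = 1 ∧ ∀ j, ∑ i, Q i j = 0 := by
  have : Fact (Module.finrank ℂ (EuclideanSpace ℂ (Fin (n + 1))) = n + 1) := ⟨by simp⟩
  set e : EuclideanSpace ℂ (Fin (n + 1)) := WithLp.toLp 2 (fun _ => (1 : ℂ)) with he
  have hne : e ≠ 0 := by
    intro h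
    have h1 : e 0 = 0 := by rw [h]; rfl
    simp [he] at h1
  let b := OrthonormalBasis.fromOrthogonalSpanSingleton (𝕜 := ℂ) n hne
  refine ⟨Matrix.of (fun i j => (b j : EuclideanSpace ℂ (Fin (n + 1))) i), ?_, ?_⟩
  · ext i j
    have h1 := orthonormal_iff_ite.1 b.orthonormal i j
    rw [Matrix.mul_apply, Matrix.one_apply, ← h1]
    rw [Submodule.coe_inner, PiLp.inner_apply]
    apply Finset.sum_congr rfl
    intro k _
    simp [Matrix.conjTranspose_apply, mul_comm]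
  · intro j
    have h1 : inner ℂ e (b j : EuclideanSpace ℂ (Fin (n + 1))) = 0 :=
      Submodule.mem_orthogonal_singleton_iff_inner_right.1 (b j).2
    rw [PiLp.inner_apply] at h1
    simpa [he] using h1

lemma qq_mulVec {n : ℕ} (Q : Matrix (Fin (n + 1)) (Fin n) ℂ)
    (hQ : Qᴴ * Q = 1) (hQe : ∀ j, ∑ i, Q i j = 0) (x : Fin (n + 1) → ℂ) (hx : ∑ i, x i = 0) :
    Q *ᵥ (Qᴴ *ᵥ x) = x := by
  have hn : ((n : ℂ) + 1) ≠ 0 := by exact_mod_cast Nat.succ_ne_zero n
  set V : Matrix (Fin n ⊕ Unit) (Fin (n + 1)) ℂ :=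
    Matrix.of (fun k i => Sum.elim (fun j => star (Q i j)) (fun _ => 1 / ((n : ℂ) + 1)) k) with hV
  set U : Matrix (Fin (n + 1)) (Fin n ⊕ Unit) ℂ :=
    Matrix.of (fun i k => Sum.elim (fun j => Q i j) (fun _ => 1) k) with hU
  have hVU : V * U = 1 := by
    ext k l
    rw [Matrix.mul_apply, Matrix.one_apply]
    rcases k with k | k <;> rcases l with l | l
    · have := congrFun (congrFun hQ k) l
      rw [Matrix.mul_apply, Matrix.one_apply] at this
      simpa [hV, hU, Matrix.conjTranspose_apply] using this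
    · have h0 : ∑ i, star (Q i k) = 0 := by rw [← star_sum, hQe k, star_zero]
      simpa [hV, hU] using h0
    · have h0 := hQe l
      simp [hV, hU, ← Finset.mul_sum, h0]
    · simp [hV, hU, hn]
  have hUV : U * V = 1 := (Matrix.mul_eq_one_comm_of_card_eq _ _ _ (by simp)).1 hVU
  have h1 : (U * V) *ᵥ x = x := by rw [hUV, Matrix.one_mulVec]
  rw [← Matrix.mulVec_mulVec] at h1
  conv_rhs => rw [← h1]
  ext i
  simp only [Matrix.mulVec, dotProduct, hU, hV, Matrix.of_apply, Fintype.sum_sum_type, Sum.elim_inl,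
    Sum.elim_inr, Finset.univ_unique, Finset.sum_singleton, ← Finset.mul_sum, hx, mul_zero,
    add_zero, Matrix.conjTranspose_apply]

lemma exists_eigvec {m : ℕ} (M : Matrix (Fin m) (Fin m) ℂ) (z : ℂ) :
    z ∈ spectrum ℂ M ↔ ∃ v : Fin m → ℂ, v ≠ 0 ∧ M *ᵥ v = z • v := by
  rw [spectrum.mem_iff, Matrix.isUnit_iff_isUnit_det, isUnit_iff_ne_zero, not_not,
    ← Matrix.exists_mulVec_eq_zero_iff]
  constructor
  · rintro ⟨v, hv, h⟩
    refine ⟨v, hv, ?_⟩
    rw [Matrix.sub_mulVec, Algebra.algebraMap_eq_smul_one, Matrix.smul_mulVec, Matrix.one_mulVec,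
      sub_eq_zero] at h
    exact h.symm
  · rintro ⟨v, hv, h⟩
    refine ⟨v, hv, ?_⟩
    rw [Matrix.sub_mulVec, Algebra.algebraMap_eq_smul_one, Matrix.smul_mulVec, Matrix.one_mulVec, h,
      sub_self]

lemma qq_mulVec' {n : ℕ} (Q : Matrix (Fin (n + 1)) (Fin n) ℂ)
    (hQ : Qᴴ * Q = 1) (hQe : ∀ j, ∑ i, Q i j = 0) (x : Fin (n + 1) → ℂ) (i : Fin (n + 1)) :
    (Q *ᵥ (Qᴴ *ᵥ x)) i = x i - (∑ k, x k) / (n + 1) := by
  have hn : ((n : ℂ) + 1) ≠ 0 := by exact_mod_cast Nat.succ_ne_zero n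
  set c : ℂ := (∑ k, x k) / (n + 1) with hc
  have h1 : ∑ k, (x k - c) = 0 := by
    rw [Finset.sum_sub_distrib]
    simp only [Finset.sum_const, Finset.card_univ, Fintype.card_fin, nsmul_eq_mul]
    rw [hc]; push_cast; field_simp; ring
  have h2 := qq_mulVec Q hQ hQe (fun k => x k - c) h1
  have h3 : Qᴴ *ᵥ (fun k => x k - c) = Qᴴ *ᵥ x := by
    ext j
    simp only [Matrix.mulVec, dotProduct, mul_sub, Finset.sum_sub_distrib]
    have h4 : ∑ k, Qᴴ j k * c = 0 := by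
      rw [← Finset.sum_mul]
      have : ∑ k, Qᴴ j k = star (∑ k, Q k j) := by rw [star_sum]; rfl
      rw [this, hQe j, star_zero, zero_mul]
    rw [h4, sub_zero]
  rw [h3] at h2
  rw [h2]

end Pool.Agent.Q257.Lap
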