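import Mathlib

set_option autoImplicit false

/-!
# Graphs whose adjacency form has small spread on the hyperplane of zero sum
-/

namespace Pool.Agent.Q257.Lap

open Finset

variable {V : Type} [Fintype V] [DecidableEq V]

open scoped Classical in
/-- the adjacency weight -/
noncomputable def wt (G : SimpleGraph V) (i j : V) : ℝ := if G.Adj i j then 1 else 0

/-- orthogonal vectors of zero sum are nearly orthogonal for the adjacency form -/
def Small (G : SimpleGraph V) : Prop :=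
  ∀ u v : V → ℝ, ∑ i, u i = 0 → ∑ i, v i = 0 → ∑ i, u i * v i = 0 → 0 < ∑ i, u i ^ 2 →
    0 < ∑ i, v i ^ 2 → (∑ i, ∑ j, wt G i j * (u i * v j)) ^ 2 < (∑ i, u i ^ 2) * ∑ i, v i ^ 2

lemma wt_adj {G : SimpleGraph V} {i j : V} (h : G.Adj i j) : wt G i j = 1 := if_pos h
lemma wt_not {G : SimpleGraph V} {i j : V} (h : ¬ G.Adj i j) : wt G i j = 0 := if_neg h

lemma pull {k : ℕ} (x : Fin k → V) (u : Fin k → ℝ) (F : V → ℝ) :
    ∑ t, F t * (∑ i, if x i = t then u i else 0) = ∑ i, F (x i) * u i := by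
  simp only [Finset.mul_sum]
  rw [Finset.sum_comm]
  apply Finset.sum_congr rfl
  intro i _
  simp

lemma pull_self {k : ℕ} (x : Fin k → V) (hx : Function.Injective x) (u : Fin k → ℝ) (i : Fin k) :
    (∑ j, if x j = x i then u j else 0) = u i := by
  simp [hx.eq_iff]

lemma small_emb {G : SimpleGraph V} (hG : Small G) {k : ℕ} (x : Fin k → V)
    (hx : Function.Injective x) (u v : Fin k → ℝ) (hu : ∑ i, u i = 0) (hv : ∑ i, v i = 0)
    (huv : ∑ i, u i * v i = 0) (hu0 : 0 < ∑ i, u i ^ 2) (hv0 : 0 < ∑ i, v i ^ 2) :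
    (∑ i, ∑ j, wt G (x i) (x j) * (u i * v j)) ^ 2 < (∑ i, u i ^ 2) * ∑ i, v i ^ 2 := by
  set U : V → ℝ := fun t => ∑ i, if x i = t then u i else 0 with hU
  set W : V → ℝ := fun t => ∑ i, if x i = t then v i else 0 with hW
  have e1 : ∑ t, U t = ∑ i, u i := by simpa using pull x u (fun _ => 1)
  have e2 : ∑ t, W t = ∑ i, v i := by simpa using pull x v (fun _ => 1)
  have e3 : ∑ t, U t * W t = ∑ i, u i * v i := by
    rw [hW]
    rw [pull x v U]
    apply Finset.sum_congr rfl
    intro i _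
    rw [hU]; simp only [pull_self x hx]
  have e4 : ∑ t, U t ^ 2 = ∑ i, u i ^ 2 := by
    have : ∑ t, U t ^ 2 = ∑ t, U t * (∑ i, if x i = t then u i else 0) := by
      apply Finset.sum_congr rfl; intro t _; rw [sq]
    rw [this, pull x u U]
    apply Finset.sum_congr rfl
    intro i _
    rw [hU]; simp only [pull_self x hx]; ring
  have e5 : ∑ t, W t ^ 2 = ∑ i, v i ^ 2 := by
    have : ∑ t, W t ^ 2 = ∑ t, W t * (∑ i, if x i = t then v i else 0) := by
      apply Finset.sum_congr rfl; intro t _; rw [sq]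
    rw [this, pull x v W]
    apply Finset.sum_congr rfl
    intro i _
    rw [hW]; simp only [pull_self x hx]; ring
  have e6 : ∑ s, ∑ t, wt G s t * (U s * W t) = ∑ i, ∑ j, wt G (x i) (x j) * (u i * v j) := by
    have h1 : ∀ s, ∑ t, wt G s t * (U s * W t) = (∑ j, wt G s (x j) * v j) * U s := by
      intro s
      have := pull x v (fun t => wt G s t)
      rw [← this, Finset.sum_mul]
      apply Finset.sum_congr rfl
      intro t _
      rw [hW]; ring
    simp only [h1]
    have h2 := pull x u (fun s => ∑ j, wt G s (x j) * v j)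
    rw [hU]
    rw [h2]
    apply Finset.sum_congr rfl
    intro i _
    rw [Finset.sum_mul]
    apply Finset.sum_congr rfl
    intro j _
    ring
  have := hG U W (by rw [e1, hu]) (by rw [e2, hv]) (by rw [e3, huv]) (by rw [e4]; exact hu0)
    (by rw [e5]; exact hv0)
  rwa [e4, e5, e6] at this

lemma small_compl {G : SimpleGraph V} (hG : Small G) : Small Gᶜ := by
  intro u v hu hv huv hu0 hv0
  have h1 : ∑ i, ∑ j, wt Gᶜ i j * (u i * v j) = - ∑ i, ∑ j, wt G i j * (u i * v j) := by
    have h2 : ∀ i j, wt Gᶜ i j * (u i * v j) =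
        u i * v j - (if i = j then u i * v j else 0) - wt G i j * (u i * v j) := by
      intro i j
      by_cases hij : i = j
      · subst hij; simp [wt]
      · by_cases hG' : G.Adj i j
        · rw [wt_not (by simp [SimpleGraph.compl_adj, hG']), wt_adj hG']; simp [hij]
        · rw [wt_adj (by simp [SimpleGraph.compl_adj, hG', hij]), wt_not hG']; simp [hij]
    simp only [h2, Finset.sum_sub_distrib]
    simp only [← Finset.mul_sum, hv, mul_zero, Finset.sum_const_zero, Finset.sum_ite_eq,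
      Finset.mem_univ, if_true, huv]
    ring
  rw [h1, neg_sq]
  exact hG u v hu hv huv hu0 hv0

/-- no alternating 4-cycle -/
lemma no_alt {G : SimpleGraph V} (hG : Small G) {a b c d : V} (h1 : G.Adj a b) (h2 : G.Adj c d)
    (h3 : ¬ G.Adj a d) (h4 : ¬ G.Adj c b) (hac : a ≠ c) (hbd : b ≠ d) (had : a ≠ d)
    (hbc : b ≠ c) : False := by
  have hab : a ≠ b := h1.ne
  have hcd : c ≠ d := h2.ne
  have hinj : Function.Injective ![a, b, c, d] := by
    intro i j h
    fin_cases i <;> fin_cases j <;>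
      simp [hab, hac, had, hbc, hbd, hcd, hab.symm, hac.symm, had.symm, hbc.symm, hbd.symm,
        hcd.symm] at h ⊢
  have := small_emb hG ![a, b, c, d] hinj ![1, 0, -1, 0] ![0, 1, 0, -1]
    (by simp [Fin.sum_univ_four]) (by simp [Fin.sum_univ_four]) (by simp [Fin.sum_univ_four])
    (by simp [Fin.sum_univ_four]) (by simp [Fin.sum_univ_four])
  simp only [Fin.sum_univ_four] at this
  simp [wt_adj h1, wt_adj h2, wt_not h3, wt_not h4] at this
  norm_num at this

/-- two non-adjacent vertices, two vertices adjacent to both and to each other, one isolated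
vertex -/
lemma no_diamond {G : SimpleGraph V} (hG : Small G) {a d b c z : V} (had : G.Adj a d)
    (hab : G.Adj a b) (hac : G.Adj a c) (hdb : G.Adj d b) (hdc : G.Adj d c) (hbc : ¬ G.Adj b c)
    (nbc : b ≠ c) (hz : ∀ y, ¬ G.Adj z y) : False := by
  have hz' : ∀ y, ¬ G.Adj y z := fun y h => hz y h.symm
  have nza : z ≠ a := by rintro rfl; exact hz _ had
  have nzd : z ≠ d := by rintro rfl; exact hz _ hdb
  have nzb : z ≠ b := by rintro rfl; exact hz _ hab.symm
  have nzc : z ≠ c := by rintro rfl; exact hz _ hac.symm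
  have hcb : ¬ G.Adj c b := fun h => hbc h.symm
  have hinj : Function.Injective ![a, d, b, c, z] := by
    intro i j h
    fin_cases i <;> fin_cases j <;>
      simp [had.ne, hab.ne, hac.ne, hdb.ne, hdc.ne, nbc, nza, nzb, nzc, nzd, had.ne', hab.ne',
        hac.ne', hdb.ne', hdc.ne', nbc.symm, nza.symm, nzb.symm, nzc.symm, nzd.symm] at h ⊢
  have := small_emb hG ![a, d, b, c, z] hinj ![2, 2, -1, -1, -2] ![0, 1, -2, -2, 3]
    (by simp [Fin.sum_univ_five]; norm_num) (by simp [Fin.sum_univ_five]; norm_num)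
    (by simp [Fin.sum_univ_five]; norm_num)
    (by simp [Fin.sum_univ_five]; norm_num) (by simp [Fin.sum_univ_five]; norm_num)
  simp only [Fin.sum_univ_five] at this
  simp [wt_adj had, wt_adj hab, wt_adj hac, wt_adj hdb, wt_adj hdc, wt_adj had.symm,
    wt_adj hab.symm, wt_adj hac.symm, wt_adj hdb.symm, wt_adj hdc.symm, wt_not hbc, wt_not hcb,
    wt_not (hz _), wt_not (hz' _), wt_not (G.loopless.irrefl _)] at this
  norm_num at this

/-- a vertex of degree at least two and three isolated vertices -/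
lemma no_three {G : SimpleGraph V} (hG : Small G) {a b c z1 z2 z3 : V} (hab : G.Adj a b)
    (hac : G.Adj a c) (nbc : b ≠ c) (hz1 : ∀ y, ¬ G.Adj z1 y) (hz2 : ∀ y, ¬ G.Adj z2 y)
    (hz3 : ∀ y, ¬ G.Adj z3 y) (n12 : z1 ≠ z2) (n13 : z1 ≠ z3) (n23 : z2 ≠ z3) : False := by
  have hz1' : ∀ y, ¬ G.Adj y z1 := fun y h => hz1 y h.symm
  have hz2' : ∀ y, ¬ G.Adj y z2 := fun y h => hz2 y h.symm
  have hz3' : ∀ y, ¬ G.Adj y z3 := fun y h => hz3 y h.symm
  have key : ∀ z, (∀ y, ¬ G.Adj z y) → z ≠ a ∧ z ≠ b ∧ z ≠ c := by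
    intro z hz
    refine ⟨?_, ?_, ?_⟩
    · rintro rfl; exact hz _ hab
    · rintro rfl; exact hz _ hab.symm
    · rintro rfl; exact hz _ hac.symm
  obtain ⟨k1, k2, k3⟩ := key z1 hz1
  obtain ⟨k4, k5, k6⟩ := key z2 hz2
  obtain ⟨k7, k8, k9⟩ := key z3 hz3
  have hinj : Function.Injective ![a, b, c, z1, z2, z3] := by
    intro i j h
    fin_cases i <;> fin_cases j <;>
      simp [hab.ne, hac.ne, nbc, k1, k2, k3, k4, k5, k6, k7, k8, k9, n12, n13, n23, hab.ne',
        hac.ne', nbc.symm, k1.symm, k2.symm, k3.symm, k4.symm, k5.symm, k6.symm, k7.symm, k8.symm,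
        k9.symm, n12.symm, n13.symm, n23.symm] at h ⊢
  have := small_emb hG ![a, b, c, z1, z2, z3] hinj ![1, -2, -2, 1, 1, 1] ![-3, 0, 0, 1, 1, 1]
    (by simp [Fin.sum_univ_six]; norm_num) (by simp [Fin.sum_univ_six]; norm_num)
    (by simp [Fin.sum_univ_six]; norm_num)
    (by simp [Fin.sum_univ_six]; norm_num) (by simp [Fin.sum_univ_six]; norm_num)
  simp only [Fin.sum_univ_six] at this
  simp [wt_adj hab, wt_adj hac, wt_adj hab.symm, wt_adj hac.symm, wt_not (hz1 _), wt_not (hz1' _),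
    wt_not (hz2 _), wt_not (hz2' _), wt_not (hz3 _), wt_not (hz3' _),
    wt_not (G.loopless.irrefl _)] at this
  norm_num at this

/-- a vertex of degree at least three and two isolated vertices -/
lemma no_two {G : SimpleGraph V} (hG : Small G) {a b c d z1 z2 : V} (hab : G.Adj a b)
    (hac : G.Adj a c) (had : G.Adj a d) (nbc : b ≠ c) (nbd : b ≠ d) (ncd : c ≠ d)
    (hz1 : ∀ y, ¬ G.Adj z1 y) (hz2 : ∀ y, ¬ G.Adj z2 y) (n12 : z1 ≠ z2) : False := by
  have hz1' : ∀ y, ¬ G.Adj y z1 := fun y h => hz1 y h.symm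
  have hz2' : ∀ y, ¬ G.Adj y z2 := fun y h => hz2 y h.symm
  have key : ∀ z, (∀ y, ¬ G.Adj z y) → z ≠ a ∧ z ≠ b ∧ z ≠ c ∧ z ≠ d := by
    intro z hz
    refine ⟨?_, ?_, ?_, ?_⟩
    · rintro rfl; exact hz _ hab
    · rintro rfl; exact hz _ hab.symm
    · rintro rfl; exact hz _ hac.symm
    · rintro rfl; exact hz _ had.symm
  obtain ⟨k1, k2, k3, k4⟩ := key z1 hz1
  obtain ⟨k5, k6, k7, k8⟩ := key z2 hz2
  have hinj : Function.Injective ![a, b, c, d, z1, z2] := by
    intro i j h
    fin_cases i <;> fin_cases j <;>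
      simp [hab.ne, hac.ne, had.ne, nbc, nbd, ncd, k1, k2, k3, k4, k5, k6, k7, k8, n12, hab.ne',
        hac.ne', had.ne', nbc.symm, nbd.symm, ncd.symm, k1.symm, k2.symm, k3.symm, k4.symm,
        k5.symm, k6.symm, k7.symm, k8.symm, n12.symm] at h ⊢
  have := small_emb hG ![a, b, c, d, z1, z2] hinj ![-1, 1, 1, 1, -1, -1] ![2, 0, 0, 0, -1, -1]
    (by simp [Fin.sum_univ_six]) (by simp [Fin.sum_univ_six]; norm_num)
    (by simp [Fin.sum_univ_six]; norm_num)
    (by simp [Fin.sum_univ_six]; norm_num) (by simp [Fin.sum_univ_six]; norm_num)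
  simp only [Fin.sum_univ_six] at this
  simp [wt_adj hab, wt_adj hac, wt_adj had, wt_adj hab.symm, wt_adj hac.symm, wt_adj had.symm,
    wt_not (hz1 _), wt_not (hz1' _), wt_not (hz2 _), wt_not (hz2' _),
    wt_not (G.loopless.irrefl _)] at this
  norm_num at this

/-- an isolated vertex, a vertex `b` with the only neighbour `a`, three more neighbours of `a` -/
lemma no_pendant {G : SimpleGraph V} (hG : Small G) {a b c d f z : V} (hab : G.Adj a b)
    (hac : G.Adj a c) (had : G.Adj a d) (haf : G.Adj a f) (nbc : b ≠ c) (nbd : b ≠ d) (nbf : b ≠ f)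
    (ncd : c ≠ d) (ncf : c ≠ f) (ndf : d ≠ f) (hz : ∀ y, ¬ G.Adj z y)
    (hb : ∀ y, G.Adj b y → y = a) : False := by
  have hz' : ∀ y, ¬ G.Adj y z := fun y h => hz y h.symm
  have k1 : z ≠ a := by rintro rfl; exact hz _ hab
  have k2 : z ≠ b := by rintro rfl; exact hz _ hab.symm
  have k3 : z ≠ c := by rintro rfl; exact hz _ hac.symm
  have k4 : z ≠ d := by rintro rfl; exact hz _ had.symm
  have k5 : z ≠ f := by rintro rfl; exact hz _ haf.symm
  have b1 : ¬ G.Adj b c := fun h => hac.ne' (hb _ h)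
  have b2 : ¬ G.Adj b d := fun h => had.ne' (hb _ h)
  have b3 : ¬ G.Adj b f := fun h => haf.ne' (hb _ h)
  have b1' : ¬ G.Adj c b := fun h => b1 h.symm
  have b2' : ¬ G.Adj d b := fun h => b2 h.symm
  have b3' : ¬ G.Adj f b := fun h => b3 h.symm
  have hinj : Function.Injective ![a, b, c, d, f, z] := by
    intro i j h
    fin_cases i <;> fin_cases j <;>
      simp [hab.ne, hac.ne, had.ne, haf.ne, nbc, nbd, nbf, ncd, ncf, ndf, k1, k2, k3, k4, k5,
        hab.ne', hac.ne', had.ne', haf.ne', nbc.symm, nbd.symm, nbf.symm, ncd.symm, ncf.symm,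
        ndf.symm, k1.symm, k2.symm, k3.symm, k4.symm, k5.symm] at h ⊢
  have := small_emb hG ![a, b, c, d, f, z] hinj ![-1, 0, 1, 1, 1, -2] ![-2, 1, 0, 0, 0, 1]
    (by simp [Fin.sum_univ_six]; norm_num) (by simp [Fin.sum_univ_six]; norm_num)
    (by simp [Fin.sum_univ_six])
    (by simp [Fin.sum_univ_six]; norm_num) (by simp [Fin.sum_univ_six]; norm_num)
  simp only [Fin.sum_univ_six] at this
  simp [wt_adj hab, wt_adj hac, wt_adj had, wt_adj haf, wt_adj hab.symm, wt_adj hac.symm,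
    wt_adj had.symm, wt_adj haf.symm, wt_not b1, wt_not b2, wt_not b3, wt_not b1', wt_not b2',
    wt_not b3', wt_not (hz _), wt_not (hz' _), wt_not (G.loopless.irrefl _)] at this
  norm_num at this

end Pool.Agent.Q257.Lap
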