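import Pool.Agent.Q257.Lap.Small

set_option autoImplicit false

/-!
# The structure of small graphs
-/

namespace Pool.Agent.Q257.Lap

open Finset

variable {V : Type} [Fintype V] [DecidableEq V]

open scoped Classical in
/-- neighbourhoods -/
noncomputable def Nb (G : SimpleGraph V) (v : V) : Finset V := univ.filter (fun w => G.Adj v w)

lemma mem_Nb {G : SimpleGraph V} {v w : V} : w ∈ Nb G v ↔ G.Adj v w := by simp [Nb]

/-- sum of the degrees -/
noncomputable def tot (G : SimpleGraph V) : ℕ := ∑ v, (Nb G v).card

lemma isolated_of_not_adj {G : SimpleGraph V} (hG : Small G) {a z : V}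
    (hmax : ∀ v, (Nb G v).card ≤ (Nb G a).card) (hza : z ≠ a) (haz : ¬ G.Adj a z) :
    ∀ y, ¬ G.Adj z y := by
  intro y hzy
  have hya : y ≠ a := by rintro rfl; exact haz hzy.symm
  by_cases hay : G.Adj a y
  · have hsub : insert z (insert a ((Nb G a).erase y)) ⊆ Nb G y := by
      intro w hw
      rw [mem_insert, mem_insert, mem_erase, mem_Nb] at hw
      rw [mem_Nb]
      rcases hw with rfl | rfl | ⟨hwy, haw⟩
      · exact hzy.symm
      · exact hay.symm
      · by_contra hyw
        have hzw : z ≠ w := by rintro rfl; exact haz haw
        exact no_alt hG hzy.symm haw hyw haz hya hzw hwy.symm hza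
    have h1 := card_le_card hsub
    have h2 : a ∉ (Nb G a).erase y := by
      rw [mem_erase, mem_Nb]; intro h; exact h.2.ne rfl
    have h3 : z ∉ insert a ((Nb G a).erase y) := by
      rw [mem_insert, mem_erase, mem_Nb]
      rintro (h | h)
      · exact hza h
      · exact haz h.2
    rw [card_insert_of_notMem h3, card_insert_of_notMem h2,
      card_erase_of_mem (mem_Nb.2 hay)] at h1
    have h4 := hmax y
    have h5 : 0 < (Nb G a).card := card_pos.2 ⟨y, mem_Nb.2 hay⟩
    omega
  · have hsub : insert y (Nb G a) ⊆ Nb G z := by
      intro w hw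
      rw [mem_insert, mem_Nb] at hw
      rw [mem_Nb]
      rcases hw with rfl | haw
      · exact hzy
      · by_contra hzw'
        have hyw : y ≠ w := by rintro rfl; exact hay haw
        have hzw : z ≠ w := by rintro rfl; exact haz haw
        exact no_alt hG hzy haw hzw' hay hza hyw hzw hya
    have h1 := card_le_card hsub
    have h2 : y ∉ Nb G a := by rw [mem_Nb]; exact hay
    rw [card_insert_of_notMem h2] at h1
    have h4 := hmax z
    omega

lemma exists_max (G : SimpleGraph V) [Nonempty V] :
    ∃ a, ∀ v, (Nb G v).card ≤ (Nb G a).card := by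
  obtain ⟨a, _, ha⟩ := Finset.exists_max_image univ (fun v => (Nb G v).card) univ_nonempty
  exact ⟨a, fun v => ha v (mem_univ v)⟩

lemma tot_eq {G : SimpleGraph V} {a : V}
    (hiso : ∀ z, z ≠ a → ¬ G.Adj a z → ∀ y, ¬ G.Adj z y) :
    tot G = (Nb G a).card + ∑ b ∈ Nb G a, (Nb G b).card := by
  unfold tot
  have ha : a ∉ Nb G a := by rw [mem_Nb]; exact fun h => h.ne rfl
  rw [← Finset.sum_insert (f := fun v => (Nb G v).card) ha]
  symm
  apply Finset.sum_subset (subset_univ _)
  intro z _ hz
  rw [mem_insert, not_or, mem_Nb] at hz
  rw [card_eq_zero]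
  ext y
  simpa [mem_Nb] using hiso z hz.1 hz.2 y

/-- The structure theorem with an isolated vertex. -/
theorem struct_iso {G : SimpleGraph V} (hG : Small G) {z : V} (hz : ∀ y, ¬ G.Adj z y)
    {p q : V} (hpq : G.Adj p q) (hcard : 3 ≤ Fintype.card V)
    (hdvd : Fintype.card V ∣ tot G) :
    ∃ a b c : V, G.Adj a b ∧ G.Adj a c ∧ ¬ G.Adj b c ∧ b ≠ c ∧
      (univ : Finset V) = {a, b, c, z} := by
  have : Nonempty V := ⟨z⟩
  obtain ⟨a, hmax⟩ := exists_max G
  have hiso : ∀ z, z ≠ a → ¬ G.Adj a z → ∀ y, ¬ G.Adj z y :=
    fun z h1 h2 => isolated_of_not_adj hG hmax h1 h2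
  have hw1 : 1 ≤ (Nb G a).card := by
    have h1 := hmax p
    have h2 : 1 ≤ (Nb G p).card := card_pos.2 ⟨q, mem_Nb.2 hpq⟩
    omega
  have hza : z ≠ a := by
    rintro rfl
    obtain ⟨y, hy⟩ := card_pos.1 hw1
    exact hz y (mem_Nb.1 hy)
  have ha : a ∉ Nb G a := by rw [mem_Nb]; exact fun h => h.ne rfl
  have hzW : z ∉ Nb G a := by rw [mem_Nb]; exact fun h => hz _ h.symm
  set Z := (univ : Finset V) \ insert a (Nb G a) with hZ
  have hZcard : Z.card + ((Nb G a).card + 1) = Fintype.card V := by
    rw [hZ, card_sdiff_of_subset (subset_univ _), card_insert_of_notMem ha, card_univ]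
    have : (Nb G a).card + 1 ≤ Fintype.card V := by
      rw [← card_insert_of_notMem ha, ← card_univ]
      exact card_le_card (subset_univ _)
    omega
  have hZiso : ∀ x ∈ Z, ∀ y, ¬ G.Adj x y := by
    intro x hx
    rw [hZ, mem_sdiff, mem_insert, not_or, mem_Nb] at hx
    exact hiso x hx.2.1 hx.2.2
  have hzZ : z ∈ Z := by
    rw [hZ, mem_sdiff, mem_insert, not_or]
    exact ⟨mem_univ _, hza, hzW⟩
  have hZ1 : 1 ≤ Z.card := card_pos.2 ⟨z, hzZ⟩
  have htot := tot_eq hiso
  have hnb : ∀ b ∈ Nb G a, Nb G b ⊆ insert a ((Nb G a).erase b) := by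
    intro b _ y hy
    rw [mem_Nb] at hy
    rw [mem_insert, mem_erase, mem_Nb]
    by_cases hya : y = a
    · exact Or.inl hya
    · right
      refine ⟨hy.ne', ?_⟩
      by_contra h
      exact hiso y hya h b hy.symm
  have hnb1 : ∀ b ∈ Nb G a, 1 ≤ (Nb G b).card := by
    intro b hb
    exact card_pos.2 ⟨a, mem_Nb.2 (mem_Nb.1 hb).symm⟩
  have hnbc : ∀ b ∈ Nb G a, (Nb G b).card ≤ (Nb G a).card := fun b _ => hmax b
  rcases Nat.lt_or_ge (Nb G a).card 2 with hw | hw
  · -- one edge
    have h1 : (Nb G a).card = 1 := by omega
    obtain ⟨b, hb⟩ := card_eq_one.1 h1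
    have hbb : b ∈ Nb G a := by rw [hb]; simp
    have h2 := hnb1 b hbb
    have h3 := hnbc b hbb
    rw [htot, hb] at hdvd
    simp at hdvd
    have h4 : (Nb G b).card = 1 := by omega
    rw [h4] at hdvd
    have := Nat.le_of_dvd (by norm_num) hdvd
    omega
  · by_cases hZ3 : 3 ≤ Z.card
    · exfalso
      obtain ⟨t, ht, ht3⟩ := exists_subset_card_eq hZ3
      obtain ⟨z1, z2, z3, h12, h13, h23, rfl⟩ := card_eq_three.1 ht3
      obtain ⟨s, hs, hs2⟩ := exists_subset_card_eq hw
      obtain ⟨b, c, hbc, rfl⟩ := card_eq_two.1 hs2
      exact no_three hG (mem_Nb.1 (hs (by simp : b ∈ _))) (mem_Nb.1 (hs (by simp : c ∈ _))) hbc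
        (hZiso z1 (ht (by simp))) (hZiso z2 (ht (by simp))) (hZiso z3 (ht (by simp))) h12 h13 h23
    · by_cases hZ2 : 2 ≤ Z.card
      · have hZc : Z.card = 2 := by omega
        obtain ⟨z1, z2, h12, hZe⟩ := card_eq_two.1 hZc
        have i1 : ∀ y, ¬ G.Adj z1 y := hZiso z1 (by rw [hZe]; simp)
        have i2 : ∀ y, ¬ G.Adj z2 y := hZiso z2 (by rw [hZe]; simp)
        exfalso
        by_cases hw3 : 3 ≤ (Nb G a).card
        · obtain ⟨t, ht, ht3⟩ := exists_subset_card_eq hw3
          obtain ⟨b, c, d, hbc, hbd, hcd, rfl⟩ := card_eq_three.1 ht3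
          exact no_two hG (mem_Nb.1 (ht (by simp : b ∈ _))) (mem_Nb.1 (ht (by simp : c ∈ _)))
            (mem_Nb.1 (ht (by simp : d ∈ _))) hbc hbd hcd i1 i2 h12
        · have hw2 : (Nb G a).card = 2 := by omega
          have hn5 : Fintype.card V = 5 := by omega
          obtain ⟨b, c, hbc, hWe⟩ := card_eq_two.1 hw2
          have hb : b ∈ Nb G a := by rw [hWe]; simp
          have hc : c ∈ Nb G a := by rw [hWe]; simp
          have e1 := hnb1 b hb
          have e2 := hnb1 c hc
          have e3 := hnbc b hb
          have e4 := hnbc c hc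
          rw [htot, hw2, hn5, hWe, Finset.sum_pair hbc] at hdvd
          have hsame : (Nb G b).card = 2 ↔ (Nb G c).card = 2 := by
            have key : ∀ x y : V, x ∈ Nb G a → y ∈ Nb G a → x ≠ y → Nb G a = {x, y} →
                ((Nb G x).card = 2 ↔ G.Adj x y) := by
              intro x y hx hy hxy he
              have hsub := hnb x hx
              have her : (Nb G a).erase x = {y} := by
                rw [he]; ext t
                simp only [mem_erase, mem_insert, mem_singleton]
                constructor
                · rintro ⟨h1, h2⟩; tauto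
                · rintro rfl; exact ⟨hxy.symm, Or.inr rfl⟩
              rw [her] at hsub
              constructor
              · intro h
                have h2 : Nb G x = insert a {y} := eq_of_subset_of_card_le hsub (by
                  rw [h]; exact card_insert_le _ _)
                rw [← mem_Nb, h2]; simp
              · intro h
                have h3 : ({a, y} : Finset V) ⊆ Nb G x := by
                  intro t ht
                  simp only [mem_insert, mem_singleton] at ht
                  rw [mem_Nb]
                  rcases ht with rfl | rfl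
                  · exact (mem_Nb.1 hx).symm
                  · exact h
                have h4 := card_le_card h3
                have h5 := card_le_card hsub
                have hay : a ≠ y := (mem_Nb.1 hy).ne
                rw [card_pair hay] at h4 h5
                omega
            rw [key b c hb hc hbc hWe, key c b hc hb hbc.symm (by rw [hWe]; exact pair_comm b c)]
            exact ⟨fun h => h.symm, fun h => h.symm⟩
          have hcases : (Nb G b).card = 1 ∨ (Nb G b).card = 2 := by omega
          have hcases' : (Nb G c).card = 1 ∨ (Nb G c).card = 2 := by omega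
          rcases hcases with h | h <;> rcases hcases' with h' | h' <;> rw [h, h'] at hdvd hsame <;>
            first | omega | (norm_num at hdvd) | (norm_num at hsame)
      · have hZc : Z.card = 1 := by omega
        have hn : Fintype.card V = (Nb G a).card + 2 := by omega
        have hZe : Z = {z} := by
          obtain ⟨z', hz'⟩ := card_eq_one.1 hZc
          rw [hz'] at hzZ ⊢
          rw [mem_singleton] at hzZ
          rw [hzZ]
        by_cases hcl : ∀ b ∈ Nb G a, ∀ c ∈ Nb G a, b ≠ c → G.Adj b c
        · exfalso
          have hdeg : ∀ b ∈ Nb G a, (Nb G b).card = (Nb G a).card := by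
            intro b hb
            have h1 : Nb G b = insert a ((Nb G a).erase b) := by
              apply Subset.antisymm (hnb b hb)
              intro y hy
              rw [mem_insert, mem_erase] at hy
              rw [mem_Nb]
              rcases hy with rfl | ⟨h1, h2⟩
              · exact (mem_Nb.1 hb).symm
              · exact hcl b hb y h2 h1.symm
            rw [h1, card_insert_of_notMem (by
              rw [mem_erase]; exact fun h => ha h.2), card_erase_of_mem hb]
            omega
          rw [htot, Finset.sum_congr rfl hdeg, Finset.sum_const, smul_eq_mul, hn] at hdvd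
          set w := (Nb G a).card
          have h2 : w + w * w + 2 = (w + 2) * (w - 1) + 4 := by
            obtain ⟨k, hk⟩ : ∃ k, w = k + 1 := ⟨w - 1, by omega⟩
            rw [hk]; simp; ring
          have h3 : w + w * w = (w + 2) * (w - 1) + 2 := by omega
          rw [h3] at hdvd
          have h4 : w + 2 ∣ 2 := (Nat.dvd_add_right (Dvd.intro _ rfl)).1 hdvd
          have := Nat.le_of_dvd (by norm_num) h4
          omega
        · push Not at hcl
          obtain ⟨b, hb, c, hc, hbc, hbc'⟩ := hcl
          have hab := mem_Nb.1 hb
          have hac := mem_Nb.1 hc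
          have hdi : ∀ d, d ≠ a → ¬ (G.Adj d b ∧ G.Adj d c) := by
            rintro d hda ⟨h1, h2⟩
            have had : G.Adj a d := by
              by_contra h
              exact hiso d hda h b h1
            exact no_diamond hG had hab hac h1 h2 hbc' hbc hz
          have hpend : (∀ y, G.Adj b y → y = a) ∨ (∀ y, G.Adj c y → y = a) := by
            by_contra hcon
            push Not at hcon
            obtain ⟨⟨d, hbd, hda⟩, ⟨d', hcd', hda'⟩⟩ := hcon
            have h1 : ¬ G.Adj b d' := fun h => hdi d' hda' ⟨h.symm, hcd'.symm⟩
            have h2 : ¬ G.Adj c d := fun h => hdi d hda ⟨hbd.symm, h.symm⟩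
            have h3 : d ≠ d' := by rintro rfl; exact h1 hbd
            have h4 : b ≠ d' := by rintro rfl; exact hbc' hcd'.symm
            have h5 : d ≠ c := by rintro rfl; exact hbc' hbd
            exact no_alt hG hbd hcd' h1 h2 hbc h3 h4 h5
          have main : ∀ b c : V, b ∈ Nb G a → c ∈ Nb G a → b ≠ c → ¬ G.Adj b c →
              (∀ y, G.Adj b y → y = a) → ∃ a b c : V, G.Adj a b ∧ G.Adj a c ∧ ¬ G.Adj b c ∧
                b ≠ c ∧ (univ : Finset V) = {a, b, c, z} := by
            intro b c hb hc hbc hbc' hpb
            have hab := mem_Nb.1 hb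
            have hac := mem_Nb.1 hc
            have hbN : (Nb G b).card = 1 := by
              rw [card_eq_one]
              refine ⟨a, ?_⟩
              ext y
              rw [mem_Nb, mem_singleton]
              exact ⟨hpb y, fun h => by rw [h]; exact hab.symm⟩
            rcases Nat.lt_or_ge (Nb G a).card 4 with hw4 | hw4
            · rcases Nat.lt_or_ge (Nb G a).card 3 with hw3 | hw3
              · -- n = 4
                refine ⟨a, b, c, hab, hac, hbc', hbc, ?_⟩
                have hWe : Nb G a = {b, c} := by
                  symm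
                  apply eq_of_subset_of_card_le
                  · intro t ht
                    simp only [mem_insert, mem_singleton] at ht
                    rcases ht with rfl | rfl
                    · exact hb
                    · exact hc
                  · rw [card_pair hbc]; omega
                ext t
                simp only [mem_univ, true_iff]
                by_cases ht : t ∈ Z
                · rw [hZe, mem_singleton] at ht
                  simp [ht]
                · rw [hZ, mem_sdiff, not_and, not_not] at ht
                  have := ht (mem_univ _)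
                  rw [hWe] at this
                  simp only [mem_insert, mem_singleton] at this ⊢
                  tauto
              · exfalso
                have hw3' : (Nb G a).card = 3 := by omega
                have hrest : ((Nb G a).erase b).card = 2 := by
                  rw [card_erase_of_mem hb]; omega
                obtain ⟨c', d', hcd, hre⟩ := card_eq_two.1 hrest
                have hc' : c' ∈ Nb G a := mem_of_mem_erase (by rw [hre]; simp : c' ∈ (Nb G a).erase b)
                have hd' : d' ∈ Nb G a := mem_of_mem_erase (by rw [hre]; simp : d' ∈ (Nb G a).erase b)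
                have hbd : ∀ x ∈ (Nb G a).erase b, (Nb G x).card ≤ 2 := by
                  intro x hx
                  have hxb := ne_of_mem_erase hx
                  have hxW := mem_of_mem_erase hx
                  have hsub : Nb G x ⊆ insert a (((Nb G a).erase x).erase b) := by
                    intro y hy
                    have h1 := hnb x hxW hy
                    rw [mem_insert] at h1 ⊢
                    rcases h1 with h1 | h1
                    · exact Or.inl h1
                    · right
                      rw [mem_erase]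
                      refine ⟨?_, h1⟩
                      rintro rfl
                      have := hpb x (mem_Nb.1 hy).symm
                      rw [this] at hxW
                      exact ha hxW
                  have h2 := card_le_card hsub
                  have h3 : b ∈ (Nb G a).erase x := mem_erase.2 ⟨hxb.symm, hb⟩
                  have h4 := card_insert_le a (((Nb G a).erase x).erase b)
                  rw [card_erase_of_mem h3, card_erase_of_mem hxW] at h4
                  omega
                have s1 : ∑ x ∈ Nb G a, (Nb G x).card =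
                    (Nb G b).card + ((Nb G c').card + (Nb G d').card) := by
                  rw [← Finset.add_sum_erase _ _ hb, hre, Finset.sum_pair hcd]
                have e1 := hnb1 c' hc'
                have e2 := hnb1 d' hd'
                have e3 := hbd c' (by rw [hre]; simp)
                have e4 := hbd d' (by rw [hre]; simp)
                have hn5 : Fintype.card V = 5 := by omega
                rw [htot, s1, hbN, hw3', hn5] at hdvd
                omega
            · exfalso
              have hrest : 3 ≤ ((Nb G a).erase b).card := by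
                rw [card_erase_of_mem hb]; omega
              obtain ⟨t, ht, ht3⟩ := exists_subset_card_eq hrest
              obtain ⟨c', d', f', h1, h2, h3, rfl⟩ := card_eq_three.1 ht3
              have q1 := ht (by simp : c' ∈ _)
              have q2 := ht (by simp : d' ∈ _)
              have q3 := ht (by simp : f' ∈ _)
              exact no_pendant hG hab (mem_Nb.1 (mem_of_mem_erase q1))
                (mem_Nb.1 (mem_of_mem_erase q2)) (mem_Nb.1 (mem_of_mem_erase q3))
                (ne_of_mem_erase q1).symm (ne_of_mem_erase q2).symm (ne_of_mem_erase q3).symm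
                h1 h2 h3 hz hpb
          rcases hpend with h | h
          · exact main b c hb hc hbc hbc' h
          · exact main c b hc hb hbc.symm (fun h' => hbc' h'.symm) h

lemma mem_Nb_compl {G : SimpleGraph V} {v w : V} : w ∈ Nb Gᶜ v ↔ v ≠ w ∧ w ∉ Nb G v := by
  rw [mem_Nb, mem_Nb, SimpleGraph.compl_adj]

lemma card_Nb_compl (G : SimpleGraph V) (v : V) :
    (Nb Gᶜ v).card + (Nb G v).card + 1 = Fintype.card V := by
  have h1 : v ∉ Nb G v := by rw [mem_Nb]; exact fun h => h.ne rfl
  have h2 : Nb Gᶜ v = univ \ insert v (Nb G v) := by
    ext w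
    rw [mem_Nb_compl, mem_sdiff, mem_insert, not_or]
    simp [eq_comm]
  have h3 : (insert v (Nb G v)).card ≤ (univ : Finset V).card := card_le_card (subset_univ _)
  rw [h2, card_sdiff_of_subset (subset_univ _), card_insert_of_notMem h1]
  rw [card_insert_of_notMem h1] at h3
  rw [card_univ] at h3 ⊢
  omega

lemma tot_compl (G : SimpleGraph V) :
    tot Gᶜ + tot G + Fintype.card V = Fintype.card V * Fintype.card V := by
  unfold tot
  have h1 : ∑ v, ((Nb Gᶜ v).card + (Nb G v).card + 1) = ∑ _v : V, Fintype.card V :=
    Finset.sum_congr rfl fun v _ => card_Nb_compl G v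
  rw [Finset.sum_add_distrib, Finset.sum_add_distrib] at h1
  simpa using h1

/-- The structure theorem. -/
theorem struct {G : SimpleGraph V} (hG : Small G) {p q : V} (hpq : G.Adj p q) {r s : V}
    (hrs : r ≠ s) (hrs' : ¬ G.Adj r s) (hcard : 3 ≤ Fintype.card V)
    (hdvd : Fintype.card V ∣ tot G) :
    ∃ (H : SimpleGraph V) (a b c z : V), (H = G ∨ H = Gᶜ) ∧ H.Adj a b ∧ H.Adj a c ∧
      ¬ H.Adj b c ∧ b ≠ c ∧ (∀ y, ¬ H.Adj z y) ∧ (univ : Finset V) = {a, b, c, z} := by
  have : Nonempty V := ⟨p⟩
  obtain ⟨a, hmax⟩ := exists_max G
  by_cases h : ∃ z, z ≠ a ∧ ¬ G.Adj a z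
  · obtain ⟨z, hza, haz⟩ := h
    have hz := isolated_of_not_adj hG hmax hza haz
    obtain ⟨a', b, c, h1, h2, h3, h4, h5⟩ := struct_iso hG hz hpq hcard hdvd
    exact ⟨G, a', b, c, z, Or.inl rfl, h1, h2, h3, h4, hz, h5⟩
  · push Not at h
    have hz : ∀ y, ¬ Gᶜ.Adj a y := by
      intro y hy
      rw [SimpleGraph.compl_adj] at hy
      exact hy.2 (h y hy.1.symm)
    have hdvd' : Fintype.card V ∣ tot Gᶜ := by
      have h1 := tot_compl G
      have h2 : Fintype.card V ∣ tot Gᶜ + (tot G + Fintype.card V) := by
        rw [← add_assoc, h1]; exact Dvd.intro _ rfl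
      exact (Nat.dvd_add_left (Dvd.dvd.add hdvd (dvd_refl _))).1 h2
    obtain ⟨a', b, c, h1, h2, h3, h4, h5⟩ := struct_iso (small_compl hG) hz
      (show Gᶜ.Adj r s by rw [SimpleGraph.compl_adj]; exact ⟨hrs, hrs'⟩) hcard hdvd'
    exact ⟨Gᶜ, a', b, c, a, Or.inr rfl, h1, h2, h3, h4, hz, h5⟩

end Pool.Agent.Q257.Lap
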